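import Pool.Agent.Lib_MP_76bad1_co.Main

/-!
# The lower bound for simple cubic graphs with at least six vertices (multiset form)
-/

open Polynomial

namespace Pool.Agent.FlowCubic

set_option linter.unusedSectionVars false

variable {V : Type*} [DecidableEq V]

/-- a simple cubic 2-edge-connected graph with vertex set `T` -/
structure Cub (T : Finset V) (M : Multiset (Sym2 V)) : Prop where
  sub : ∀ e ∈ M, ∀ v ∈ e, v ∈ T
  deg : ∀ x ∈ T, dg M x = 3
  cut : ∀ U ⊆ T, U.Nonempty → U ≠ T → 2 ≤ cr M U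
  noloop : ∀ a, s(a, a) ∉ M
  simp : ∀ e, M.count e ≤ 1

namespace Cub

variable {T : Finset V} {M : Multiset (Sym2 V)}

lemma st (h : Cub T M) {w : V} (hw : w ∈ T) : St (T.erase w) w M where
  hw := by simp
  sub := by
    intro e he v hv
    by_cases hvw : v = w
    · right; exact hvw
    · left; rw [Finset.mem_erase]; exact ⟨hvw, h.sub e he v hv⟩
  deg := fun x hx => h.deg x (Finset.mem_of_mem_erase hx)
  cut := by
    intro U hU hne
    refine h.cut U (hU.trans (Finset.erase_subset _ _)) hne ?_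
    rintro rfl
    have := hU hw
    simp at this
  noloop := h.noloop
  simp := fun a _ b _ => h.simp _

lemma no_double (h : Cub T M) {e : Sym2 V} {R : Multiset (Sym2 V)} (hR : e ::ₘ e ::ₘ R ≤ M) :
    False := by
  have h1 := (Multiset.count_le_of_le e hR).trans (h.simp e)
  rw [Multiset.count_cons_self, Multiset.count_cons_self] at h1
  omega

/-- graphs with a triangle -/
lemma bound_tri (h : Cub T M) {i : ℕ} (hT : T.card = 2 * i + 6) {x y z : V}
    (hxyM : s(x, y) ∈ M) (hxzM : s(x, z) ∈ M) (hyzM : s(y, z) ∈ M) :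
    NN (- Phi M - X * (X + 1) ^ (i + 1) * (X + 2) ^ 2) := by
  have hxT : x ∈ T := h.sub _ hxyM x (by simp)
  have hyT : y ∈ T := h.sub _ hxyM y (by simp)
  have hzT : z ∈ T := h.sub _ hxzM z (by simp)
  have hxy : x ≠ y := by rintro rfl; exact h.noloop _ hxyM
  have hxz : x ≠ z := by rintro rfl; exact h.noloop _ hxzM
  have hyz : y ≠ z := by rintro rfl; exact h.noloop _ hyzM
  obtain ⟨R1, rfl⟩ := Multiset.exists_cons_of_mem hxyM
  have hxzM1 : s(x, z) ∈ R1 := by
    rcases Multiset.mem_cons.mp hxzM with h1 | h1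
    · rw [Sym2.congr_right] at h1; exact absurd h1.symm hyz
    · exact h1
  obtain ⟨R2, rfl⟩ := Multiset.exists_cons_of_mem hxzM1
  have hyzM1 : s(y, z) ∈ R2 := by
    rcases Multiset.mem_cons.mp hyzM with h1 | h1
    · exfalso
      rw [Sym2.eq_swap, Sym2.congr_left] at h1; exact hxz h1.symm
    rcases Multiset.mem_cons.mp h1 with h1 | h1
    · exfalso
      rw [Sym2.congr_left] at h1; exact hxy h1.symm
    · exact h1
  obtain ⟨R3, rfl⟩ := Multiset.exists_cons_of_mem hyzM1
  have hdx := h.deg x hxT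
  have hdy := h.deg y hyT
  have hdz := h.deg z hzT
  simp only [dg_cons, dgE_mk, hxy, hxz, hyz, hxy.symm, hxz.symm, hyz.symm, if_true, if_false]
    at hdx hdy hdz
  obtain ⟨w, R4, rfl⟩ := exists_mem_of_dg (M := R3) (x := x) (by omega)
  have hxw : x ≠ w := by rintro rfl; exact h.noloop x (by simp)
  have hyw : y ≠ w := by
    rintro rfl
    refine h.no_double (e := s(x, y)) (R := R4) ?_
    apply Multiset.cons_le_cons
    exact le_cons2 _ _ _
  have hzw : z ≠ w := by
    rintro rfl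
    refine h.no_double (e := s(x, z)) (R := R4) ?_
    refine le_trans ?_ (Multiset.le_cons_self _ _)
    apply Multiset.cons_le_cons
    exact Multiset.le_cons_self _ _
  simp only [dg_cons, dgE_mk, hxy, hxz, hxw.symm, hyw.symm, hzw.symm, if_true, if_false]
    at hdx hdy hdz
  obtain ⟨p, R5, rfl⟩ := exists_mem_of_dg (M := R4) (x := y) (by omega)
  have hyp : y ≠ p := by rintro rfl; exact h.noloop y (by simp)
  have hxp : x ≠ p := by
    rintro rfl
    simp at hdx
    omega
  have hzp : z ≠ p := by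
    rintro rfl
    refine h.no_double (e := s(y, z)) (R := R5) ?_
    refine le_trans ?_ (le_cons2 _ _ _)
    apply Multiset.cons_le_cons
    exact Multiset.le_cons_self _ _
  simp only [dg_cons, dgE_mk, hxy.symm, hyz, hyp.symm, hxp.symm, hzp.symm, if_true, if_false]
    at hdx hdy hdz
  obtain ⟨q, R, rfl⟩ := exists_mem_of_dg (M := R5) (x := z) (by omega)
  have hzq : z ≠ q := by rintro rfl; exact h.noloop z (by simp)
  have hxq : x ≠ q := by
    rintro rfl
    simp at hdx
    omega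
  have hyq : y ≠ q := by
    rintro rfl
    simp at hdy
    omega
  simp only [dg_cons, dgE_mk, hxz.symm, hyz.symm, hxq.symm, hyq.symm, hzq.symm, if_true,
    if_false] at hdx hdy hdz
  have hxR : Fr x R := dg_eq_zero_iff.mp (by omega)
  have hyR : Fr y R := dg_eq_zero_iff.mp (by omega)
  have hzR : Fr z R := dg_eq_zero_iff.mp (by omega)
  have hform : (s(x, y) ::ₘ s(x, z) ::ₘ s(y, z) ::ₘ s(x, w) ::ₘ s(y, p) ::ₘ s(z, q) ::ₘ R) =
      (s(x, w) ::ₘ s(y, p) ::ₘ s(z, q) ::ₘ s(x, y) ::ₘ s(x, z) ::ₘ s(y, z) ::ₘ R) := by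
    simp only [← Multiset.singleton_add]; abel
  rw [hform] at h ⊢
  have hwT : w ∈ T := h.sub s(x, w) (by simp) w (by simp)
  have hpT : p ∈ T := h.sub s(y, p) (by simp) p (by simp)
  have hqT : q ∈ T := h.sub s(z, q) (by simp) q (by simp)
  rw [Phi_tri hxy hxz hyz hxw hyw hzw hxp hyp hzp hxq hyq hzq hxR hyR hzR]
  -- the contracted state, with special vertex `x`
  have hRM : R ≤ (s(x, w) ::ₘ s(y, p) ::ₘ s(z, q) ::ₘ s(x, y) ::ₘ s(x, z) ::ₘ s(y, z) ::ₘ R) :=
    (le_cons3 _ _ _ _).trans (le_cons3 _ _ _ _)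
  have hS' : ∀ v, v ∈ ((T.erase x).erase y).erase z ↔ (v ≠ z ∧ v ≠ y ∧ v ≠ x ∧ v ∈ T) := by
    intro v; rw [Finset.mem_erase, Finset.mem_erase, Finset.mem_erase]
  have hst : St (((T.erase x).erase y).erase z) x (s(x, w) ::ₘ s(x, p) ::ₘ s(x, q) ::ₘ R) := by
    refine ⟨?_, ?_, ?_, ?_, ?_, ?_⟩
    · rw [hS']; simp
    · intro e he v hv
      by_cases hvx : v = x
      · right; exact hvx
      · left
        rw [hS']
        rcases Multiset.mem_cons.mp he with rfl | he
        · rcases Sym2.mem_iff.mp hv with rfl | rfl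
          · exact absurd rfl hvx
          · exact ⟨hzw.symm, hyw.symm, hvx, hwT⟩
        rcases Multiset.mem_cons.mp he with rfl | he
        · rcases Sym2.mem_iff.mp hv with rfl | rfl
          · exact absurd rfl hvx
          · exact ⟨hzp.symm, hyp.symm, hvx, hpT⟩
        rcases Multiset.mem_cons.mp he with rfl | he
        · rcases Sym2.mem_iff.mp hv with rfl | rfl
          · exact absurd rfl hvx
          · exact ⟨hzq.symm, hyq.symm, hvx, hqT⟩
        · refine ⟨?_, ?_, hvx, h.sub e (Multiset.mem_of_le hRM he) v hv⟩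
          · rintro rfl; exact hzR e he hv
          · rintro rfl; exact hyR e he hv
    · intro v hv
      rw [hS'] at hv
      have h1 := h.deg v hv.2.2.2
      simp only [dg_cons, dgE_mk, hv.1.symm, hv.2.1.symm, hv.2.2.1.symm, if_false] at h1 ⊢
      omega
    · intro U hU hne
      have hxU : x ∉ U := fun h' => ((hS' x).mp (hU h')).2.2.1 rfl
      have hyU : y ∉ U := fun h' => ((hS' y).mp (hU h')).2.1 rfl
      have hzU : z ∉ U := fun h' => ((hS' z).mp (hU h')).1 rfl
      have hUT : U ⊆ T := fun v hv => ((hS' v).mp (hU hv)).2.2.2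
      have h1 := h.cut U hUT hne (by rintro rfl; exact hxU hxT)
      simpa [hxU, hyU, hzU] using h1
    · intro a ha
      have key : ∀ c, x ≠ c → s(a, a) ≠ s(x, c) := by
        intro c hc h1
        have h2 : x ∈ s(a, a) := by rw [h1]; simp
        have h3 : c ∈ s(a, a) := by rw [h1]; simp
        simp only [Sym2.mem_iff, or_self] at h2 h3
        exact hc (h2.trans h3.symm)
      rcases Multiset.mem_cons.mp ha with h1 | ha
      · exact key w hxw h1
      rcases Multiset.mem_cons.mp ha with h1 | ha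
      · exact key p hxp h1
      rcases Multiset.mem_cons.mp ha with h1 | ha
      · exact key q hxq h1
      · exact h.noloop a (Multiset.mem_of_le hRM ha)
    · intro a ha b hb
      rw [hS'] at ha hb
      have hn : ∀ c, s(a, b) ≠ s(x, c) := fun c => ne_of_notMem_sym2 ha.2.2.1 hb.2.2.1
      rw [Multiset.count_cons_of_ne (hn _), Multiset.count_cons_of_ne (hn _),
        Multiset.count_cons_of_ne (hn _)]
      exact (Multiset.count_le_of_le _ hRM).trans (h.simp _)
  have hcard : (((T.erase x).erase y).erase z).card = 2 * i + 3 := by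
    rw [Finset.card_erase_of_mem, Finset.card_erase_of_mem, Finset.card_erase_of_mem hxT]
    · omega
    · rw [Finset.mem_erase]; exact ⟨hxy.symm, hyT⟩
    · rw [Finset.mem_erase, Finset.mem_erase]; exact ⟨hyz.symm, hxz.symm, hzT⟩
  have hD : dg (s(x, w) ::ₘ s(x, p) ::ₘ s(x, q) ::ₘ R) x = 2 * 1 + 1 := by
    have : dg R x = 0 := dg_eq_zero_iff.mpr hxR
    simp [hxw.symm, hxp.symm, hxq.symm, this]
  have h6 := (main _ _ _ _ hst hcard).oddB' i 1 rfl hD
  have h7 := NN_X2.mul h6
  have h8 : (-1 : ℤ[X]) ^ (2 * i + 3) = -1 := by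
    rw [pow_add, pow_mul]; norm_num
  rw [h8] at h7
  have h9 : -((X + 2) * Phi (s(x, w) ::ₘ s(x, p) ::ₘ s(x, q) ::ₘ R)) -
      X * (X + 1) ^ (i + 1) * (X + 2) ^ 2 =
      (X + 2) * (-1 * Phi (s(x, w) ::ₘ s(x, p) ::ₘ s(x, q) ::ₘ R) -
        X ^ 1 * (X + 1) ^ (i + 1) * (X + 2)) := by ring
  rw [h9]
  exact h7

/-- graphs with a 2-edge-cut -/
lemma bound_cut (h : Cub T M) {i : ℕ} (hT : T.card = 2 * i + 6) {U : Finset V} (hU : U ⊆ T)
    (_hUne : U.Nonempty) (_hUT : U ≠ T) (hcr : cr M U = 2) :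
    NN (- Phi M - X * (X + 1) ^ (i + 1) * (X + 2) ^ 2) := by
  obtain ⟨x, w, R, hx, hwU, hM0⟩ := exists_mem_of_cr (M := M) (U := U) (by omega)
  have hxwM : s(x, w) ∈ M := by rw [hM0]; simp
  have hwT : w ∈ T := h.sub _ hxwM w (by simp)
  have hUS : U ⊆ T.erase w := by
    intro v hv
    rw [Finset.mem_erase]
    exact ⟨fun h' => hwU (h' ▸ hv), hU hv⟩
  have hst := h.st hwT
  obtain ⟨u, z, M1, N, hM, hu, hz, h1, h2⟩ := hst.tight_decomp hUS hx hxwM hcr
  subst hM
  clear hM0
  have hxw : x ≠ w := fun h' => hwU (h' ▸ hx)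
  have huw : u ≠ w := fun h' => hwU (h' ▸ hu)
  have hM1w : dg M1 w = 0 := dg_eq_zero_iff.mpr (fun e he hve => hwU (h1 e he w hve))
  have hdw := h.deg w hwT
  have hin := hst.inside hUS hx hu hz h1 h2
  have hDin : dg (s(x, w) ::ₘ s(u, w) ::ₘ M1) w = 2 := by
    simp [hxw, huw, hM1w]
  obtain ⟨k, hk⟩ := hin.parity
  rw [hDin] at hk
  have hUpos : 0 < U.card := Finset.card_pos.mpr ⟨x, hx⟩
  have hScard : (T.erase w).card = 2 * i + 5 := by
    rw [Finset.card_erase_of_mem hwT]; omega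
  have hUle : U.card ≤ (T.erase w).card := Finset.card_le_card hUS
  have hsd : (T.erase w \ U).card = (T.erase w).card - U.card := Finset.card_sdiff_of_subset hUS
  obtain ⟨i', hi'⟩ : ∃ i', U.card = 2 * i' + 2 := ⟨k - 2, by omega⟩
  have hzw : z ≠ w := by
    rintro rfl
    simp [hxw, huw, hM1w] at hdw
    have h3 := h.cut (insert z U) (by
      intro v hv
      rcases Finset.mem_insert.mp hv with rfl | hv
      · exact hwT
      · exact hU hv) (Finset.insert_nonempty _ _) (by
      intro h'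
      have := congrArg Finset.card h'
      rw [Finset.card_insert_of_notMem hwU, hT] at this
      omega)
    have h4 : cr M1 (insert z U) = 0 := by
      apply cr_eq_zero
      intro e he
      induction e using Sym2.ind with
      | _ a b =>
        have ha : a ∈ U := h1 _ he a (by simp)
        have hb : b ∈ U := h1 _ he b (by simp)
        simp [ha, hb]
    have h5 : cr N (insert z U) = cr N {z} := by
      apply cr_congr
      intro e he v hv
      have hv' := h2 e he v hv
      simp [hv']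
    have h6 := cr_singleton_le N z
    simp [hx, hu, h4, h5] at h3
    omega
  have hout := hst.outside hUS hx hu hz hzw h1 h2
  have hzM : s(u, z) ∈ (s(x, w) ::ₘ s(u, z) ::ₘ (M1 + N)) := by simp
  have hzT : z ∈ T := h.sub _ hzM z (by simp)
  obtain ⟨j', hj'⟩ : ∃ j', (T.erase w \ U).card = 2 * j' + 3 := by
    refine ⟨i - i' , ?_⟩
    have h3 : (T.erase w \ U).card ≠ 1 := by
      intro hc1
      obtain ⟨z', hz'⟩ := Finset.card_eq_one.mp hc1
      have hzz : z = z' := by
        have : z ∈ T.erase w \ U := by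
          rw [Finset.mem_sdiff, Finset.mem_erase]; exact ⟨⟨hzw, hzT⟩, hz⟩
        rw [hz'] at this
        simpa using this
      subst hzz
      have hdz := hout.deg z (by rw [hz']; simp)
      simp [hzw.symm] at hdz
      obtain ⟨a, N1, rfl⟩ := exists_mem_of_dg (M := N) (x := z) (by omega)
      have haz : z ≠ a := by
        rintro rfl
        exact h.noloop z (by simp)
      have haw : a = w := by
        by_contra haw
        have haU : a ∉ U := h2 s(z, a) (by simp) a (by simp)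
        have haT : a ∈ T := h.sub s(z, a) (by simp) a (by simp)
        have : a ∈ T.erase w \ U := by
          rw [Finset.mem_sdiff, Finset.mem_erase]; exact ⟨⟨haw, haT⟩, haU⟩
        rw [hz', Finset.mem_singleton] at this
        exact haz this.symm
      subst haw
      simp [haz.symm] at hdz
      obtain ⟨a', N2, rfl⟩ := exists_mem_of_dg (M := N1) (x := z) (by omega)
      have haz' : z ≠ a' := by
        rintro rfl
        exact h.noloop z (by simp)
      have haw' : a' = a := by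
        by_contra haw'
        have haU : a' ∉ U := h2 s(z, a') (by simp) a' (by simp)
        have haT : a' ∈ T := h.sub s(z, a') (by simp) a' (by simp)
        have : a' ∈ T.erase a \ U := by
          rw [Finset.mem_sdiff, Finset.mem_erase]; exact ⟨⟨haw', haT⟩, haU⟩
        rw [hz', Finset.mem_singleton] at this
        exact haz' this.symm
      subst haw'
      refine h.no_double (e := s(z, a')) (R := N2) ?_
      exact (Multiset.le_add_left _ M1).trans (le_cons2 _ _ _)
    omega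
  have hij : i' + j' = i := by omega
  have hPU := (main _ _ _ _ hin rfl).evenB' i' 1 hi' hDin
  have hdN : dg (s(w, z) ::ₘ N) w = 2 * 1 + 1 := by
    simp [hxw, huw, hM1w, hzw] at hdw
    simp [hzw]
    omega
  have hQ := (main _ _ _ _ hout rfl).oddB' j' 1 hj' hdN
  apply NN_of_X_mul
  have hcut := Phi_cut U hwU hz N h2 M1 h1 x u hx hu
  have h3 := NN_mul_sub (NN_base' 1 i') (NN_base' 1 (j' + 1)) hPU hQ
  have h4 : X * (- Phi (s(x, w) ::ₘ s(u, z) ::ₘ (M1 + N)) -
      X * (X + 1) ^ (i + 1) * (X + 2) ^ 2) =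
      (-1) ^ U.card * Phi (s(x, w) ::ₘ s(u, w) ::ₘ M1) *
        ((-1) ^ (T.erase w \ U).card * Phi (s(w, z) ::ₘ N)) -
      X ^ 1 * (X + 1) ^ i' * (X + 2) * (X ^ 1 * (X + 1) ^ (j' + 1) * (X + 2)) := by
    have e1 : X * (- Phi (s(x, w) ::ₘ s(u, z) ::ₘ (M1 + N)) -
      X * (X + 1) ^ (i + 1) * (X + 2) ^ 2) = -(X * Phi (s(x, w) ::ₘ s(u, z) ::ₘ (M1 + N)))
      - X * (X * (X + 1) ^ (i + 1) * (X + 2) ^ 2) := by ring
    rw [e1, hcut]
    have e2 : (-1 : ℤ[X]) ^ U.card = 1 := by
      rw [hi', pow_add, pow_mul]; norm_num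
    have e3 : (-1 : ℤ[X]) ^ (T.erase w \ U).card = -1 := by
      rw [hj', pow_add, pow_mul]; norm_num
    rw [e2, e3]
    generalize Phi (s(x, w) ::ₘ s(u, w) ::ₘ M1) = A
    generalize Phi (s(w, z) ::ₘ N) = B
    rw [← hij]
    ring
  rw [h4]
  exact h3

/-- triangle-free graphs without 2-edge-cuts -/
lemma bound_free (h : Cub T M) {i : ℕ} (hT : T.card = 2 * i + 6)
    (hcr : ∀ U ⊆ T, U.Nonempty → U ≠ T → 3 ≤ cr M U)
    (htri : ∀ x y z, s(x, y) ∈ M → s(x, z) ∈ M → s(y, z) ∈ M → False) :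
    NN (- Phi M - X * (X + 1) ^ (i + 1) * (X + 2) ^ 2) := by
  obtain ⟨w, hwT⟩ : T.Nonempty := Finset.card_pos.mp (by omega)
  have hst := h.st hwT
  have hScard : (T.erase w).card = 2 * i + 5 := by
    rw [Finset.card_erase_of_mem hwT]; omega
  obtain ⟨x, hx, hxwM⟩ := hst.exists_nbr (Finset.card_pos.mp (by omega))
  obtain ⟨b, c, R, rfl, hR, hxw, hxb, hxc⟩ := hst.decomp' hx hxwM
  have hbw : b ≠ w := by
    rintro rfl
    exact h.no_double (e := s(x, b)) (R := s(x, c) ::ₘ R) le_rfl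
  have hcw : c ≠ w := by
    rintro rfl
    refine h.no_double (e := s(x, c)) (R := R) ?_
    apply Multiset.cons_le_cons
    exact Multiset.le_cons_self _ _
  have hbc : b ≠ c := by
    rintro rfl
    exact h.no_double (e := s(x, b)) (R := R) (Multiset.le_cons_self _ _)
  have hbcR : s(b, c) ∉ R := by
    intro h'
    exact htri x b c (by simp) (by simp) (by simp [h'])
  have hdel := hst.del hx hbw hcw hxb hxc hR hbc hbcR (by
    intro U hU hxU
    refine hcr U (hU.trans (Finset.erase_subset _ _)) ⟨x, hxU⟩ ?_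
    rintro rfl
    have := hU hwT
    simp at this)
  have hcon := hst.con hx hbw hcw hxb hxc hR
  have hcard : ((T.erase w).erase x).card = 2 * i + 4 := by
    rw [Finset.card_erase_of_mem hx]; omega
  have hdw := h.deg w hwT
  have hdR : dg R w = 2 := by
    simp [hxw, hbw, hcw] at hdw
    omega
  have hDdel : dg (s(b, c) ::ₘ R) w = 2 * 1 := by
    simp [hbw, hcw, hdR]
  have hB := (main _ _ _ _ hdel hcard).evenB' (i + 1) 1 (by omega) hDdel
  have hPhi := Phi_r1 hxw hxb hxc hR
  have hbS : b ∈ T.erase w := b_mem hst (x := x) (by simp) hbw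
  have hbS' : b ∈ (T.erase w).erase x := by
    rw [Finset.mem_erase]; exact ⟨hxb.symm, hbS⟩
  have hbwR : s(w, b) ∉ R := by
    intro h'
    exact htri x w b (by simp) (by simp) (by simp [h'])
  -- edges of the contracted graph not at `w` are edges of the graph
  have hback : ∀ a a', a ≠ w → a' ≠ w → s(a, a') ∈ (s(w, b) ::ₘ s(w, c) ::ₘ R) →
      s(a, a') ∈ (s(x, w) ::ₘ s(x, b) ::ₘ s(x, c) ::ₘ R) := by
    intro a a' ha ha' hm
    rcases Multiset.mem_cons.mp hm with h1 | hm
    · exact absurd h1 (ne_of_notMem_sym2 ha ha')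
    rcases Multiset.mem_cons.mp hm with h1 | hm
    · exact absurd h1 (ne_of_notMem_sym2 ha ha')
    · simp [hm]
  have hbwM : s(b, w) ∈ (s(w, b) ::ₘ s(w, c) ::ₘ R) := by
    rw [Sym2.eq_swap]; simp
  have hcount : (s(w, b) ::ₘ s(w, c) ::ₘ R).count s(w, b) = 1 := by
    rw [Multiset.count_cons_self, Multiset.count_cons_of_ne, Multiset.count_eq_zero.mpr hbwR]
    rw [Ne, Sym2.congr_right]
    exact hbc
  have hcr' : ∀ U ⊆ (T.erase w).erase x, U.Nonempty →
      cr (s(w, b) ::ₘ s(w, c) ::ₘ R) U = cr (s(x, w) ::ₘ s(x, b) ::ₘ s(x, c) ::ₘ R) U := by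
    intro U hU _
    have hxU : x ∉ U := fun h => by simpa using hU h
    have hwU : w ∉ U := fun h => by simpa using hU h
    simp [hxU, hwU]
  obtain ⟨b1, b2, R', hM', hR', -, hbb1, hbb2⟩ := hcon.decomp' hbS' hbwM
  have hD4 : dg (s(w, b) ::ₘ s(w, c) ::ₘ R) w = 4 := by
    simp [hbw, hcw, hdR]
  rw [hPhi]
  rw [hM'] at hcon hback hcount hD4 hcr'
  have hPhi2 : Phi (s(w, b) ::ₘ s(w, c) ::ₘ R) =
      - Phi (s(w, b1) ::ₘ s(w, b2) ::ₘ R') - Phi (s(b1, b2) ::ₘ R') := by
    rw [hM']
    exact Phi_r1 hbw hbb1 hbb2 hR'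
  rw [hPhi2]
  have hb1w : b1 ≠ w := by
    rintro rfl
    rw [Sym2.eq_swap (a := b) (b := b1), Multiset.count_cons_self,
      Multiset.count_cons_self] at hcount
    omega
  have hb2w : b2 ≠ w := by
    rintro rfl
    rw [Sym2.eq_swap (a := b) (b := b2), Multiset.count_cons_self,
      Multiset.cons_swap, Multiset.count_cons_self] at hcount
    omega
  have hb12 : b1 ≠ b2 := by
    rintro rfl
    have hb1S : b1 ∈ (T.erase w).erase x := b_mem hcon (x := b) (by simp) hb1w
    have := hcon.simp b hbS' b1 hb1S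
    rw [Multiset.count_cons, Multiset.count_cons_self, Multiset.count_cons_self] at this
    omega
  have hb12R : s(b1, b2) ∉ R' := by
    intro h'
    exact htri b b1 b2 (hback b b1 hbw hb1w (by simp)) (hback b b2 hbw hb2w (by simp))
      (hback b1 b2 hb1w hb2w (by simp [h']))
  have hdel2 := hcon.del hbS' hb1w hb2w hbb1 hbb2 hR' hb12 hb12R (by
    intro U hU hbU
    rw [hcr' U hU ⟨b, hbU⟩]
    refine hcr U ((hU.trans (Finset.erase_subset _ _)).trans (Finset.erase_subset _ _))
      ⟨b, hbU⟩ ?_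
    rintro rfl
    have := hU hwT
    simp at this)
  have hcon2 := hcon.con hbS' hb1w hb2w hbb1 hbb2 hR'
  have hcard2 : (((T.erase w).erase x).erase b).card = 2 * i + 3 := by
    rw [Finset.card_erase_of_mem hbS']; omega
  have hdR' : dg R' w = 3 := by
    simp [hbw, hb1w, hb2w] at hD4
    omega
  have hD2 : dg (s(b1, b2) ::ₘ R') w = 2 * 1 + 1 := by
    simp [hb1w, hb2w, hdR']
  have hD3 : dg (s(w, b1) ::ₘ s(w, b2) ::ₘ R') w = 2 * 2 + 1 := by
    simp [hb1w, hb2w, hdR']
  have hA1 := (main _ _ _ _ hdel2 hcard2).oddB' i 1 rfl hD2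
  have hA2 := (main _ _ _ _ hcon2 hcard2).oddB' i 2 rfl hD3
  have hsum := (hA1.add hA2).add hB
  have e1 : (-1 : ℤ[X]) ^ (2 * i + 3) = -1 := by
    rw [pow_add, pow_mul]; norm_num
  have e2 : (-1 : ℤ[X]) ^ (2 * i + 4) = 1 := by
    rw [pow_add, pow_mul]; norm_num
  rw [e1, e2] at hsum
  generalize Phi (s(w, b1) ::ₘ s(w, b2) ::ₘ R') = A at hsum ⊢
  generalize Phi (s(b1, b2) ::ₘ R') = B at hsum ⊢
  generalize Phi (s(b, c) ::ₘ R) = C at hsum ⊢
  have h5 : - (-(-A - B) - C) - X * (X + 1) ^ (i + 1) * (X + 2) ^ 2 =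
      -1 * B - X ^ 1 * (X + 1) ^ (i + 1) * (X + 2) +
      (-1 * A - X ^ 2 * (X + 1) ^ (i + 1) * (X + 2)) +
      (1 * C - X ^ 1 * (X + 1) ^ (i + 1) * (X + 2)) := by ring
  rw [h5]
  exact hsum

theorem bound (h : Cub T M) {i : ℕ} (hT : T.card = 2 * i + 6) :
    NN (- Phi M - X * (X + 1) ^ (i + 1) * (X + 2) ^ 2) := by
  by_cases htri : ∃ x y z, s(x, y) ∈ M ∧ s(x, z) ∈ M ∧ s(y, z) ∈ M
  · obtain ⟨x, y, z, h1, h2, h3⟩ := htri
    exact h.bound_tri hT h1 h2 h3
  · by_cases hc : ∃ U ⊆ T, U.Nonempty ∧ U ≠ T ∧ cr M U = 2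
    · obtain ⟨U, hU, h1, h2, h3⟩ := hc
      exact h.bound_cut hT hU h1 h2 h3
    · refine h.bound_free hT ?_ (fun x y z h1 h2 h3 => htri ⟨x, y, z, h1, h2, h3⟩)
      intro U hU h1 h2
      have h3 := h.cut U hU h1 h2
      have h4 : cr M U ≠ 2 := fun h' => hc ⟨U, hU, h1, h2, h'⟩
      omega

end Cub

end Pool.Agent.FlowCubic
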