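import Pool.Agent.Lib_MP_76bad1_co.Cubic

/-!
# From simple graphs to multisets of edges
-/

open Polynomial

namespace Pool.Agent.FlowCubic

set_option linter.unusedSectionVars false

variable {V : Type*} [Fintype V] [DecidableEq V]

/-- number of connected components of the spanning subgraph `(V, Z)` -/
noncomputable def comps (Z : Finset (Sym2 V)) : ℕ :=
  Nat.card (SimpleGraph.fromEdgeSet (Z : Set (Sym2 V))).ConnectedComponent

/-- Tutte's flow polynomial `F(G, t) = ∑_{Z ⊆ E} (-1)^{m - |Z|} t^{|Z| + c(Z) - n}` -/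
noncomputable def flowPoly (G : SimpleGraph V) [DecidableRel G.Adj] : ℤ[X] :=
  ∑ Z ∈ G.edgeFinset.powerset,
    (-1) ^ (G.edgeFinset.card - Z.card) * X ^ (Z.card + comps Z - Fintype.card V)

lemma two_smul_zero (a : V) :
    Finsupp.single a (1 : ZMod 2) + Finsupp.single a 1 = 0 := by
  rw [← Finsupp.single_add]
  have : (1 : ZMod 2) + 1 = 0 := by decide
  simp [this]

lemma reach_mem {Z : Finset (Sym2 V)} {a b : V}
    (h : (SimpleGraph.fromEdgeSet (Z : Set (Sym2 V))).Reachable a b) :
    Finsupp.single a (1 : ZMod 2) + Finsupp.single b 1 ∈ sp Z.val := by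
  obtain ⟨p⟩ := h
  induction p with
  | nil => rw [two_smul_zero]; exact Submodule.zero_mem _
  | @cons u v w hadj p ih =>
    have h1 : s(u, v) ∈ Z.val := by
      have := hadj
      rw [SimpleGraph.fromEdgeSet_adj] at this
      exact this.1
    have h2 := vec_mem_sp h1
    rw [vec_mk] at h2
    have h3 := Submodule.add_mem _ h2 ih
    have h4 : Finsupp.single u (1 : ZMod 2) + Finsupp.single v 1 +
        (Finsupp.single v 1 + Finsupp.single w 1) =
        Finsupp.single u (1 : ZMod 2) + Finsupp.single w 1 +
          (Finsupp.single v 1 + Finsupp.single v 1) := by abel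
    rw [h4, two_smul_zero, add_zero] at h3
    exact h3

lemma finrank_aux2 {K E F : Type*} [Field K] [AddCommGroup E] [Module K E] [AddCommGroup F]
    [Module K F] [FiniteDimensional K E] (L : E →ₗ[K] F) (hL : Function.Surjective L) :
    Module.finrank K F + Module.finrank K (LinearMap.ker L) = Module.finrank K E := by
  rw [← LinearMap.finrank_range_add_finrank_ker L, LinearMap.range_eq_top.mpr hL, finrank_top]

lemma rk_add_comps (Z : Finset (Sym2 V)) (hZ : ∀ a, s(a, a) ∉ Z) :
    rk Z.val + comps Z = Fintype.card V := by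
  classical
  set H := SimpleGraph.fromEdgeSet (Z : Set (Sym2 V)) with hH
  set π : V → H.ConnectedComponent := H.connectedComponentMk with hπ
  have hsurj : Function.Surjective π := fun c => by
    induction c using SimpleGraph.ConnectedComponent.ind with
    | _ v => exact ⟨v, rfl⟩
  have hfin : Finite H.ConnectedComponent := Finite.of_surjective π hsurj
  have : Fintype H.ConnectedComponent := Fintype.ofFinite _
  set L := Finsupp.lmapDomain (ZMod 2) (ZMod 2) π with hL
  have hker : LinearMap.ker L = sp Z.val := by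
    apply le_antisymm
    · intro f hf
      rw [LinearMap.mem_ker, hL, Finsupp.lmapDomain_apply] at hf
      -- representatives
      set r : H.ConnectedComponent → V := Function.surjInv hsurj with hr
      have hr' : ∀ c, π (r c) = c := Function.surjInv_eq hsurj
      have h1 : Finsupp.mapDomain (r ∘ π) f = 0 := by
        rw [Finsupp.mapDomain_comp, hf]; simp
      have h2 : ∀ g : V →₀ ZMod 2, g + Finsupp.mapDomain (r ∘ π) g ∈ sp Z.val := by
        intro g
        induction g using Finsupp.induction_linear with
        | zero => simp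
        | add g1 g2 h3 h4 =>
          rw [Finsupp.mapDomain_add]
          have h5 := Submodule.add_mem _ h3 h4
          have h6 : g1 + g2 + (Finsupp.mapDomain (r ∘ π) g1 + Finsupp.mapDomain (r ∘ π) g2) =
              g1 + Finsupp.mapDomain (r ∘ π) g1 + (g2 + Finsupp.mapDomain (r ∘ π) g2) := by abel
          rw [h6]
          exact h5
        | single v c =>
          rw [Finsupp.mapDomain_single]
          have h5 : H.Reachable v (r (π v)) := by
            have := hr' (π v)
            rw [hπ, SimpleGraph.ConnectedComponent.eq] at this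
            exact this.symm
          have h6 := Submodule.smul_mem _ c (reach_mem h5)
          simpa [smul_add, Finsupp.smul_single] using h6
      have h3 := h2 f
      rwa [h1, add_zero] at h3
    · unfold sp
      rw [Submodule.span_le]
      rintro v ⟨e, he, rfl⟩
      induction e using Sym2.ind with
      | _ a b =>
        rw [SetLike.mem_coe, LinearMap.mem_ker, hL, vec_mk, map_add, Finsupp.lmapDomain_apply,
          Finsupp.lmapDomain_apply, Finsupp.mapDomain_single, Finsupp.mapDomain_single]
        have hab : π a = π b := by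
          rw [hπ, SimpleGraph.ConnectedComponent.eq]
          apply SimpleGraph.Adj.reachable
          rw [hH, SimpleGraph.fromEdgeSet_adj]
          refine ⟨he, ?_⟩
          rintro rfl
          exact hZ a he
        rw [hab, ← Finsupp.single_add]
        have : (1 : ZMod 2) + 1 = 0 := by decide
        simp [this]
  have h1 := finrank_aux2 L (by
    rw [hL]
    exact Finsupp.mapDomain_surjective hsurj)
  rw [hker, Module.finrank_finsupp_self, Module.finrank_finsupp_self] at h1
  unfold rk comps
  rw [← hH, Nat.card_eq_fintype_card]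
  omega

lemma sum_powerset_val (S : Finset (Sym2 V)) (f : Multiset (Sym2 V) → ℤ[X]) :
    (S.val.powerset.map f).sum = ∑ Z ∈ S.powerset, f Z.val := by
  induction S using Finset.induction_on generalizing f with
  | empty => simp
  | insert e S he ih =>
    rw [Finset.insert_val, Multiset.ndinsert_of_notMem he, Multiset.powerset_cons,
      Multiset.map_add, Multiset.sum_add, Multiset.map_map, Finset.sum_powerset_insert he]
    congr 1
    · exact ih f
    · rw [ih]
      apply Finset.sum_congr rfl
      intro Z hZ
      have hZ' : e ∉ Z := fun h => he (Finset.mem_powerset.mp hZ h)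
      rw [Finset.insert_val, Multiset.ndinsert_of_notMem hZ']
      rfl

lemma NN_comp {P : ℤ[X]} (h : NN P) : NN (P.comp (X + 1)) := by
  have h1 : P.comp (X + 1) = ∑ i ∈ Finset.range (P.natDegree + 1), C (P.coeff i) * (X + 1) ^ i := by
    rw [comp, eval₂_eq_sum_range]
  rw [h1]
  have h2 : ∀ s : Finset ℕ, NN (∑ i ∈ s, C (P.coeff i) * (X + 1) ^ i) := by
    intro s
    induction s using Finset.induction_on with
    | empty => simpa using NN_zero
    | insert a s ha ih =>
      rw [Finset.sum_insert ha]
      apply NN.add _ ih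
      apply NN.mul _ (NN_X1.pow _)
      intro i
      rw [coeff_C]
      split_ifs
      · exact h a
      · exact le_rfl
  exact h2 _

variable (G : SimpleGraph V) [DecidableRel G.Adj]

lemma flow_coeff (k : ℕ) :
    (flowPoly G).coeff k = (-1) ^ (G.edgeFinset.card + k) *
      ((Phi G.edgeFinset.val).comp (X + 1)).coeff k := by
  unfold flowPoly Phi
  rw [sum_powerset_val, Polynomial.finsetSum_coeff, Polynomial.sum_comp,
    Polynomial.finsetSum_coeff, Finset.mul_sum]
  apply Finset.sum_congr rfl
  intro Z hZ
  have hZ' := Finset.mem_powerset.mp hZ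
  have hloop : ∀ a, s(a, a) ∉ Z := by
    intro a ha
    have := hZ' ha
    rw [SimpleGraph.mem_edgeFinset, SimpleGraph.mem_edgeSet] at this
    exact G.loopless.irrefl a this
  have h1 := rk_add_comps Z hloop
  have h2 := rk_le_card Z.val
  rw [Finset.card_val] at h2
  have h3 : Z.card + comps Z - Fintype.card V = Z.card - rk Z.val := by omega
  have h4 : (term Z.val).comp (X + 1) = (-1) ^ (rk Z.val) * X ^ (Z.card - rk Z.val) := by
    unfold term
    rw [mul_comp, pow_comp, pow_comp, Finset.card_val]
    simp
  rw [h3, h4]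
  have e1 : ((-1 : ℤ[X]) ^ (G.edgeFinset.card - Z.card)) = C ((-1) ^ (G.edgeFinset.card - Z.card)) := by
    simp
  have e2 : ((-1 : ℤ[X]) ^ (rk Z.val)) = C ((-1) ^ (rk Z.val)) := by
    simp
  rw [e1, e2, coeff_C_mul, coeff_C_mul, coeff_X_pow]
  by_cases hk : k = Z.card - rk Z.val
  · rw [if_pos hk, mul_one, mul_one]
    have hcard := Finset.card_le_card hZ'
    have e3 : (-1 : ℤ) ^ (G.edgeFinset.card + k) * (-1) ^ rk Z.val =
        (-1) ^ (G.edgeFinset.card - Z.card) * (-1) ^ (2 * Z.card) := by
      rw [← pow_add, ← pow_add]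
      congr 1
      omega
    rw [e3, pow_mul]
    norm_num
  · rw [if_neg hk]; simp

lemma dg_edge (x : V) : dg G.edgeFinset.val x = G.degree x := by
  rw [← SimpleGraph.card_incidenceFinset_eq_degree, SimpleGraph.incidenceFinset_eq_filter,
    Finset.card_filter]
  unfold dg
  change ∑ e ∈ G.edgeFinset, dgE x e = _
  apply Finset.sum_congr rfl
  intro e he
  rw [SimpleGraph.mem_edgeFinset] at he
  induction e using Sym2.ind with
  | _ a b =>
    have hab : a ≠ b := G.ne_of_adj he
    rw [dgE_mk]
    by_cases h1 : a = x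
    · subst h1
      simp [hab.symm]
    · by_cases h2 : b = x
      · subst h2
        simp [h1]
      · simp [h1, h2, Ne.symm h1, Ne.symm h2]

theorem cub_of_graph (hcon : G.Connected) (hbr : ∀ e ∈ G.edgeSet, ¬ G.IsBridge e)
    (hdeg : ∀ v, G.degree v = 3) : Cub (Finset.univ : Finset V) G.edgeFinset.val where
  sub := by intro e _ v _; exact Finset.mem_univ v
  deg := by intro x _; rw [dg_edge]; exact hdeg x
  noloop := by
    intro a ha
    have : s(a, a) ∈ G.edgeFinset := ha
    rw [SimpleGraph.mem_edgeFinset, SimpleGraph.mem_edgeSet] at this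
    exact G.loopless.irrefl a this
  simp := fun e => Multiset.nodup_iff_count_le_one.mp G.edgeFinset.nodup e
  cut := by
    intro U _ hne hU
    obtain ⟨a, ha⟩ := hne
    obtain ⟨b, hb⟩ : ∃ b, b ∉ U := by
      by_contra hcon
      push Not at hcon
      exact hU (Finset.eq_univ_iff_forall.mpr hcon)
    obtain ⟨p⟩ := hcon.preconnected a b
    obtain ⟨d, _, hd1, hd2⟩ := p.exists_boundary_dart (U : Set V) ha hb
    have hadj : G.Adj d.fst d.snd := d.adj
    have hbr' := hbr s(d.fst, d.snd) hadj
    rw [SimpleGraph.isBridge_iff] at hbr'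
    have hreach : (G \ SimpleGraph.fromEdgeSet {s(d.fst, d.snd)}).Reachable d.fst d.snd := by
      by_contra h
      exact hbr' h
    obtain ⟨q⟩ := hreach
    obtain ⟨d', _, hd1', hd2'⟩ := q.exists_boundary_dart (U : Set V) hd1 hd2
    have hadj' := d'.adj
    rw [SimpleGraph.sdiff_adj, SimpleGraph.fromEdgeSet_adj] at hadj'
    have hne' : s(d'.fst, d'.snd) ≠ s(d.fst, d.snd) := by
      intro h
      apply hadj'.2
      refine ⟨h, G.ne_of_adj hadj'.1⟩
    have h1 : s(d.fst, d.snd) ∈ G.edgeFinset.val := by
      have : s(d.fst, d.snd) ∈ G.edgeFinset := by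
        rw [SimpleGraph.mem_edgeFinset]; exact hadj
      exact this
    have h2 : s(d'.fst, d'.snd) ∈ G.edgeFinset.val := by
      have : s(d'.fst, d'.snd) ∈ G.edgeFinset := by
        rw [SimpleGraph.mem_edgeFinset]; exact hadj'.1
      exact this
    obtain ⟨R, hR⟩ := Multiset.exists_cons_of_mem h1
    have h3 : s(d'.fst, d'.snd) ∈ R := by
      rw [hR] at h2
      rcases Multiset.mem_cons.mp h2 with h | h
      · exact absurd h hne'
      · exact h
    obtain ⟨R', hR'⟩ := Multiset.exists_cons_of_mem h3
    have a1 : d.fst ∈ U := hd1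
    have a2 : d.snd ∉ U := hd2
    have a3 : d'.fst ∈ U := hd1'
    have a4 : d'.snd ∉ U := hd2'
    rw [hR, hR', cr_cons, cr_cons, crE_mk, crE_mk]
    simp only [a1, a2, a3, a4, iff_false, not_true_eq_false, if_false]
    omega

theorem flow_bound (hcon : G.Connected) (hbr : ∀ e ∈ G.edgeSet, ¬ G.IsBridge e)
    (hdeg : ∀ v, G.degree v = 3) (h6 : 6 ≤ Fintype.card V) (k : ℕ) :
    ((X + 1) * (X + 2) ^ (Fintype.card V / 2 - 2) * (X + 3) ^ 2 : ℤ[X]).coeff k ≤
      |(flowPoly G).coeff k| := by
  have hC := cub_of_graph G hcon hbr hdeg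
  have hh := handshake (M := G.edgeFinset.val) (T := Finset.univ) hC.sub
  rw [Finset.sum_congr rfl hC.deg] at hh
  simp only [Finset.sum_const, smul_eq_mul, Finset.card_univ] at hh
  obtain ⟨i, hi⟩ : ∃ i, Fintype.card V = 2 * i + 6 :=
    ⟨(Fintype.card V - 6) / 2, by omega⟩
  have hb := hC.bound (i := i) (by rw [Finset.card_univ]; exact hi)
  have hb2 := NN_comp hb k
  have hexp : Fintype.card V / 2 - 2 = i + 1 := by omega
  rw [hexp, flow_coeff]
  rw [sub_comp, neg_comp, coeff_sub, coeff_neg, mul_comp, mul_comp, pow_comp, pow_comp, add_comp,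
    add_comp, X_comp, one_comp] at hb2
  have e1 : (2 : ℤ[X]).comp (X + 1) = 2 := by
    have : (2 : ℤ[X]) = C 2 := rfl
    rw [this, C_comp]
  rw [e1] at hb2
  have e2 : ((X + 1) * (X + 1 + 1) ^ (i + 1) * (X + 1 + 2) ^ 2 : ℤ[X]) =
      (X + 1) * (X + 2) ^ (i + 1) * (X + 3) ^ 2 := by
    have e3 : (X + 1 + 1 : ℤ[X]) = X + 2 := by ring
    have e4 : (X + 1 + 2 : ℤ[X]) = X + 3 := by ring
    rw [e3, e4]
  rw [e2] at hb2
  rw [abs_mul, abs_pow, abs_neg, abs_one, one_pow, one_mul]
  have h7 := neg_abs_le (((Phi G.edgeFinset.val).comp (X + 1)).coeff k)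
  linarith

end Pool.Agent.FlowCubic
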