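import Pool.Agent.Lib_MP_76bad1_co.Steps

/-!
# The main induction
-/

open Polynomial

namespace Pool.Agent.FlowCubic

set_option linter.unusedSectionVars false

variable {V : Type*} [DecidableEq V]

lemma NN_mul_sub {P Q A C : ℤ[X]} (hA : NN A) (hC : NN C) (h1 : NN (P - A)) (h2 : NN (Q - C)) :
    NN (P * Q - A * C) := by
  have h3 : P * Q - A * C = (P - A) * ((Q - C) + C) + A * (Q - C) := by ring
  rw [h3]
  exact (h1.mul (h2.add hC)).add (hA.mul h2)

lemma NN_of_X_mul {P : ℤ[X]} (h : NN (X * P)) : NN P := by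
  intro i
  have := h (i + 1)
  rwa [coeff_X_mul] at this

lemma NN_base (a b : ℕ) : NN (X ^ a * (X + 1) ^ b) := (NN_X.pow a).mul (NN_X1.pow b)

lemma NN_base' (a b : ℕ) : NN (X ^ a * (X + 1) ^ b * (X + 2)) := (NN_base a b).mul NN_X2

/-- all the lower bounds for a state with `n` cubic vertices -/
structure Bd (n : ℕ) (w : V) (M : Multiset (Sym2 V)) : Prop where
  evenB : ∀ j d, n = 2 * j → dg M w = 2 * d → NN ((-1) ^ n * Phi M - X ^ d * (X + 1) ^ j)
  evenB' : ∀ i d, n = 2 * i + 2 → dg M w = 2 * d →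
    NN ((-1) ^ n * Phi M - X ^ d * (X + 1) ^ i * (X + 2))
  oddB : ∀ j d, n = 2 * j + 1 → dg M w = 2 * d + 1 →
    NN ((-1) ^ n * Phi M - X ^ d * (X + 1) ^ (j + 1))
  oddB' : ∀ i d, n = 2 * i + 3 → dg M w = 2 * d + 1 →
    NN ((-1) ^ n * Phi M - X ^ d * (X + 1) ^ (i + 1) * (X + 2))

lemma Bd.mk' {n : ℕ} {w : V} {M : Multiset (Sym2 V)} (h0 : n ≠ 0)
    (h1 : n = 1 → ∀ d, dg M w = 2 * d + 1 → NN ((-1) ^ n * Phi M - X ^ d * (X + 1)))
    (hev : ∀ i d, n = 2 * i + 2 → dg M w = 2 * d →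
      NN ((-1) ^ n * Phi M - X ^ d * (X + 1) ^ i * (X + 2)))
    (hod : ∀ i d, n = 2 * i + 3 → dg M w = 2 * d + 1 →
      NN ((-1) ^ n * Phi M - X ^ d * (X + 1) ^ (i + 1) * (X + 2))) : Bd n w M := by
  refine ⟨?_, hev, ?_, hod⟩
  · intro j d hj hd
    obtain ⟨i, rfl⟩ : ∃ i, j = i + 1 := ⟨j - 1, by omega⟩
    have h2 := (hev i d (by omega) hd).add (NN_base d i)
    have h3 : (-1) ^ n * Phi M - X ^ d * (X + 1) ^ i * (X + 2) + X ^ d * (X + 1) ^ i
        = (-1) ^ n * Phi M - X ^ d * (X + 1) ^ (i + 1) := by ring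
    rwa [h3] at h2
  · intro j d hj hd
    rcases Nat.eq_zero_or_pos j with rfl | hjpos
    · have := h1 (by omega) d hd
      simpa using this
    · obtain ⟨i, rfl⟩ : ∃ i, j = i + 1 := ⟨j - 1, by omega⟩
      have h2 := (hod i d (by omega) hd).add (NN_base d (i + 1))
      have h3 : (-1) ^ n * Phi M - X ^ d * (X + 1) ^ (i + 1) * (X + 2) + X ^ d * (X + 1) ^ (i + 1)
          = (-1) ^ n * Phi M - X ^ d * (X + 1) ^ (i + 1 + 1) := by ring
      rwa [h3] at h2

lemma case_r3 {S : Finset V} {w x : V} {R : Multiset (Sym2 V)} {m : ℕ}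
    (h : St S w (s(x, w) ::ₘ s(x, w) ::ₘ s(x, w) ::ₘ R)) (hx : x ∈ S) (hR : Fr x R)
    (ih : Bd m w R) :
    Bd (m + 1) w (s(x, w) ::ₘ s(x, w) ::ₘ s(x, w) ::ₘ R) := by
  have hxw := h.ne_w hx
  have hP : (-1 : ℤ[X]) ^ (m + 1) * Phi (s(x, w) ::ₘ s(x, w) ::ₘ s(x, w) ::ₘ R) =
      X * (X + 1) * ((-1) ^ m * Phi R) := by
    rw [Phi_r3 hxw hR, pow_succ]; ring
  have hD : dg (s(x, w) ::ₘ s(x, w) ::ₘ s(x, w) ::ₘ R) w = 3 + dg R w := by
    simp [hxw]; ring
  apply Bd.mk' (by omega)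
  · intro hm d hd
    rw [hD] at hd
    obtain ⟨e, rfl⟩ : ∃ e, d = e + 1 := ⟨d - 1, by omega⟩
    have h1 := ih.evenB 0 e (by omega) (by omega)
    have h2 := (NN_X.mul NN_X1).mul h1
    rw [hP]
    have h3 : X * (X + 1) * ((-1) ^ m * Phi R) - X ^ (e + 1) * (X + 1) =
        X * (X + 1) * ((-1) ^ m * Phi R - X ^ e * (X + 1) ^ 0) := by ring
    rwa [h3]
  · intro i d hi hd
    rw [hD] at hd
    obtain ⟨e, rfl⟩ : ∃ e, d = e + 2 := ⟨d - 2, by omega⟩
    rw [hP]
    rcases Nat.eq_zero_or_pos i with rfl | hi0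
    · have h1 := ih.oddB 0 e (by omega) (by omega)
      have h2 := ((NN_X.mul NN_X1).mul h1).add (NN_X.pow (e + 1))
      have h3 : X * (X + 1) * ((-1) ^ m * Phi R) - X ^ (e + 2) * (X + 1) ^ 0 * (X + 2) =
          X * (X + 1) * ((-1) ^ m * Phi R - X ^ e * (X + 1) ^ (0 + 1)) + X ^ (e + 1) := by ring
      rwa [h3]
    · obtain ⟨k, rfl⟩ : ∃ k, i = k + 1 := ⟨i - 1, by omega⟩
      have h1 := ih.oddB' k e (by omega) (by omega)
      have h2 := ((NN_X.mul NN_X1).mul h1).add (NN_base' (e + 1) (k + 1))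
      have h3 : X * (X + 1) * ((-1) ^ m * Phi R) - X ^ (e + 2) * (X + 1) ^ (k + 1) * (X + 2) =
          X * (X + 1) * ((-1) ^ m * Phi R - X ^ e * (X + 1) ^ (k + 1) * (X + 2)) +
          X ^ (e + 1) * (X + 1) ^ (k + 1) * (X + 2) := by ring
      rwa [h3]
  · intro i d hi hd
    rw [hD] at hd
    obtain ⟨e, rfl⟩ : ∃ e, d = e + 1 := ⟨d - 1, by omega⟩
    rw [hP]
    have h1 := ih.evenB' i e (by omega) (by omega)
    have h2 := (NN_X.mul NN_X1).mul h1
    have h3 : X * (X + 1) * ((-1) ^ m * Phi R) - X ^ (e + 1) * (X + 1) ^ (i + 1) * (X + 2) =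
        X * (X + 1) * ((-1) ^ m * Phi R - X ^ e * (X + 1) ^ i * (X + 2)) := by ring
    rwa [h3]

lemma case_r2 {S : Finset V} {w x b : V} {R : Multiset (Sym2 V)} {m : ℕ}
    (h : St S w (s(x, w) ::ₘ s(x, w) ::ₘ s(x, b) ::ₘ R)) (hx : x ∈ S) (hbw : b ≠ w)
    (hxb : x ≠ b) (hR : Fr x R) (hm : m ≠ 0) (ih : Bd m w (s(w, b) ::ₘ R)) :
    Bd (m + 1) w (s(x, w) ::ₘ s(x, w) ::ₘ s(x, b) ::ₘ R) := by
  have hxw := h.ne_w hx
  set Q := Phi (s(w, b) ::ₘ R) with hQ
  have hP : (-1 : ℤ[X]) ^ (m + 1) * Phi (s(x, w) ::ₘ s(x, w) ::ₘ s(x, b) ::ₘ R) =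
      (X + 1) * ((-1) ^ m * Q) := by
    rw [Phi_r2 hxw hxb hR, pow_succ]; ring
  have hD : dg (s(x, w) ::ₘ s(x, w) ::ₘ s(x, b) ::ₘ R) w = 2 + dg R w := by
    simp [hxw, hbw]; ring
  have hD' : dg (s(w, b) ::ₘ R) w = 1 + dg R w := by
    simp [hbw]
  apply Bd.mk' (by omega)
  · intro hm1; omega
  · intro i d hi hd
    rw [hD] at hd
    obtain ⟨e, rfl⟩ : ∃ e, d = e + 1 := ⟨d - 1, by omega⟩
    rw [hP]
    rcases Nat.eq_zero_or_pos i with rfl | hi0
    · have h1 := ih.oddB 0 e (by omega) (by omega)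
      have h2 := (NN_X1.mul h1).add (NN_X.pow e)
      have h3 : (X + 1) * ((-1) ^ m * Q) - X ^ (e + 1) * (X + 1) ^ 0 * (X + 2) =
          (X + 1) * ((-1) ^ m * Q - X ^ e * (X + 1) ^ (0 + 1)) + X ^ e := by ring
      rwa [h3]
    · obtain ⟨k, rfl⟩ : ∃ k, i = k + 1 := ⟨i - 1, by omega⟩
      have h1 := ih.oddB' k e (by omega) (by omega)
      have h2 := (NN_X1.mul h1).add (NN_base' e (k + 1))
      have h3 : (X + 1) * ((-1) ^ m * Q) - X ^ (e + 1) * (X + 1) ^ (k + 1) * (X + 2) =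
          (X + 1) * ((-1) ^ m * Q - X ^ e * (X + 1) ^ (k + 1) * (X + 2)) +
          X ^ e * (X + 1) ^ (k + 1) * (X + 2) := by ring
      rwa [h3]
  · intro i d hi hd
    rw [hD] at hd
    rw [hP]
    have h1 := ih.evenB' i d (by omega) (by omega)
    have h2 := NN_X1.mul h1
    have h3 : (X + 1) * ((-1) ^ m * Q) - X ^ d * (X + 1) ^ (i + 1) * (X + 2) =
        (X + 1) * ((-1) ^ m * Q - X ^ d * (X + 1) ^ i * (X + 2)) := by ring
    rwa [h3]

/-- the product rule for a tight set, in the form of a lower bound -/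
lemma tight_bound {S : Finset V} {w x u z : V} {U : Finset V} {M1 N : Multiset (Sym2 V)} {n : ℕ}
    (h : St S w (s(x, w) ::ₘ s(u, z) ::ₘ (M1 + N))) (hn : S.card = n)
    (ih : ∀ m < n, ∀ (S : Finset V) (w : V) (M : Multiset (Sym2 V)), St S w M → S.card = m →
      Bd m w M)
    (hU : U ⊆ S) (hx : x ∈ U) (hu : u ∈ U)
    (hz : z ∉ U) (h1 : ∀ e ∈ M1, ∀ v ∈ e, v ∈ U) (h2 : ∀ e ∈ N, ∀ v ∈ e, v ∉ U)
    {i d : ℕ} (hi : n = 2 * i + 3)
    (hd : dg (s(x, w) ::ₘ s(u, z) ::ₘ (M1 + N)) w = 2 * d + 1) :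
    NN ((-1) ^ n * Phi (s(x, w) ::ₘ s(u, z) ::ₘ (M1 + N)) -
      X ^ d * (X + 1) ^ (i + 1) * (X + 2)) := by
  have hwU : w ∉ U := fun h' => h.hw (hU h')
  have hxw := h.ne_w (hU hx)
  have huw := h.ne_w (hU hu)
  have hin := h.inside hU hx hu hz h1 h2
  have hM1w : dg M1 w = 0 := dg_eq_zero_iff.mpr (fun e he hve => hwU (h1 e he w hve))
  have hDin : dg (s(x, w) ::ₘ s(u, w) ::ₘ M1) w = 2 := by
    simp [hxw, huw, hM1w]
  obtain ⟨k, hk⟩ := hin.parity
  rw [hDin] at hk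
  have hUpos : 0 < U.card := Finset.card_pos.mpr ⟨x, hx⟩
  have hUle : U.card ≤ S.card := Finset.card_le_card hU
  have hsd : (S \ U).card = S.card - U.card := Finset.card_sdiff_of_subset hU
  obtain ⟨i', hi'⟩ : ∃ i', U.card = 2 * i' + 2 := ⟨k - 2, by omega⟩
  obtain ⟨j', hj'⟩ : ∃ j', (S \ U).card = 2 * j' + 1 := ⟨i - i', by omega⟩
  have hij : i' + j' = i := by omega
  have hPU := (ih U.card (by omega) U w _ hin rfl).evenB' i' 1 hi' hDin
  have hQ : NN ((-1) ^ (S \ U).card * Phi (s(w, z) ::ₘ N) - X ^ d * (X + 1) ^ (j' + 1)) := by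
    by_cases hzw : z = w
    · subst hzw
      have hout := h.outside' hU hx hu h1 h2
      have hdN : dg N z = 2 * (d - 1) + 1 := by
        simp [hxw, huw, hM1w] at hd
        omega
      have hd1 : 1 ≤ d := by
        simp [hxw, huw, hM1w] at hd
        omega
      obtain ⟨e, rfl⟩ : ∃ e, d = e + 1 := ⟨d - 1, by omega⟩
      have h3 := (ih (S \ U).card (by omega) _ z _ hout rfl).oddB j' e hj' (by simpa using hdN)
      have h4 := NN_X.mul h3
      rw [Phi_loop]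
      have h5 : (-1) ^ (S \ U).card * (X * Phi N) - X ^ (e + 1) * (X + 1) ^ (j' + 1) =
          X * ((-1) ^ (S \ U).card * Phi N - X ^ e * (X + 1) ^ (j' + 1)) := by ring
      rwa [h5]
    · have hout := h.outside hU hx hu hz hzw h1 h2
      have hdN : dg (s(w, z) ::ₘ N) w = 2 * d + 1 := by
        simp [hxw, huw, hM1w, hzw] at hd
        simp [hzw]
        omega
      exact (ih (S \ U).card (by omega) _ w _ hout rfl).oddB j' d hj' hdN
  apply NN_of_X_mul
  have hcut := Phi_cut U hwU hz N h2 M1 h1 x u hx hu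
  have h3 := NN_mul_sub (NN_base' 1 i') (NN_base d (j' + 1)) hPU hQ
  have h4 : X * ((-1) ^ n * Phi (s(x, w) ::ₘ s(u, z) ::ₘ (M1 + N)) -
      X ^ d * (X + 1) ^ (i + 1) * (X + 2)) =
      (-1) ^ U.card * Phi (s(x, w) ::ₘ s(u, w) ::ₘ M1) *
        ((-1) ^ (S \ U).card * Phi (s(w, z) ::ₘ N)) -
      X ^ 1 * (X + 1) ^ i' * (X + 2) * (X ^ d * (X + 1) ^ (j' + 1)) := by
    have hs : n = U.card + (S \ U).card := by omega
    have e1 : X * ((-1) ^ n * Phi (s(x, w) ::ₘ s(u, z) ::ₘ (M1 + N)) -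
      X ^ d * (X + 1) ^ (i + 1) * (X + 2)) = (-1) ^ n * (X * Phi (s(x, w) ::ₘ s(u, z) ::ₘ (M1 + N)))
      - X * (X ^ d * (X + 1) ^ (i + 1) * (X + 2)) := by ring
    rw [e1, hcut]
    generalize Phi (s(x, w) ::ₘ s(u, w) ::ₘ M1) = A
    generalize Phi (s(w, z) ::ₘ N) = B
    rw [← hij, hs, pow_add]
    ring
  rw [h4]
  exact h3

lemma tri_bound {S : Finset V} {w x b c : V} {R : Multiset (Sym2 V)} {n : ℕ}
    (h : St S w (s(x, w) ::ₘ s(x, b) ::ₘ s(x, c) ::ₘ R)) (hn : S.card = n)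
    (ih : ∀ m < n, ∀ (S : Finset V) (w : V) (M : Multiset (Sym2 V)), St S w M → S.card = m →
      Bd m w M)
    (hx : x ∈ S) (hbS : b ∈ S) (hcS : c ∈ S) (hxb : x ≠ b) (hxc : x ≠ c) (hbc : b ≠ c)
    (hR : Fr x R) (hbcR : s(b, c) ∈ R)
    (ht : ∀ U ⊆ S, x ∈ U → 3 ≤ cr (s(x, w) ::ₘ s(x, b) ::ₘ s(x, c) ::ₘ R) U)
    {i d : ℕ} (hi : n = 2 * i + 3)
    (hd : dg (s(x, w) ::ₘ s(x, b) ::ₘ s(x, c) ::ₘ R) w = 2 * d + 1) :
    NN ((-1) ^ n * Phi (s(x, w) ::ₘ s(x, b) ::ₘ s(x, c) ::ₘ R) -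
      X ^ d * (X + 1) ^ (i + 1) * (X + 2)) := by
  have hxw := h.ne_w hx
  have hbw := h.ne_w hbS
  have hcw := h.ne_w hcS
  obtain ⟨R1, rfl⟩ := Multiset.exists_cons_of_mem hbcR
  have hdb := h.deg b hbS
  have hdc := h.deg c hcS
  simp [hxb, hbw.symm, hbc.symm] at hdb
  simp [hxc, hcw.symm, hbc] at hdc
  obtain ⟨p, R2, rfl⟩ := exists_mem_of_dg (M := R1) (x := b) (by omega)
  have hbp : b ≠ p := by
    rintro rfl
    exact h.noloop b (by simp)
  have hpc : c ≠ p := by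
    rintro rfl
    have h2 := h.count_le (R := s(b, c) ::ₘ s(b, c) ::ₘ R2) (le_cons3 _ _ _ _) hbS hcS
    rw [Multiset.count_cons_self, Multiset.count_cons_self] at h2
    omega
  simp [hbp.symm] at hdb
  simp [hbc, hpc.symm] at hdc
  obtain ⟨q, R3, rfl⟩ := exists_mem_of_dg (M := R2) (x := c) (by omega)
  have hcq : c ≠ q := by
    rintro rfl
    exact h.noloop c (by simp)
  simp [hcq.symm] at hdc
  rw [Fr_cons, Fr_cons, Fr_cons] at hR
  obtain ⟨-, -, -, hxp, -, hxq, hxR3⟩ := hR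
  have hbq : b ≠ q := by
    rintro rfl
    simp [hbc.symm] at hdb
    omega
  simp [hbc.symm, hbq.symm] at hdb
  have hbR3 : Fr b R3 := dg_eq_zero_iff.mp (by omega)
  have hcR3 : Fr c R3 := dg_eq_zero_iff.mp (by omega)
  have hform : (s(x, w) ::ₘ s(x, b) ::ₘ s(x, c) ::ₘ s(b, c) ::ₘ s(b, p) ::ₘ s(c, q) ::ₘ R3) =
      (s(x, w) ::ₘ s(b, p) ::ₘ s(c, q) ::ₘ s(x, b) ::ₘ s(x, c) ::ₘ s(b, c) ::ₘ R3) := by
    simp only [← Multiset.singleton_add]; abel
  have hpS : p ∈ S ∨ p = w := h.sub s(b, p) (by simp) p (by simp)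
  have hpq : p = q → p = w := by
    intro hpq
    subst hpq
    rcases hpS with hpS | hpw
    · exfalso
      have hdp := h.deg p hpS
      have hpw := h.ne_w hpS
      have h3 := ht {x, b, c, p} (by
        intro v hv
        simp only [Finset.mem_insert, Finset.mem_singleton] at hv
        rcases hv with rfl | rfl | rfl | rfl
        · exact hx
        · exact hbS
        · exact hcS
        · exact hpS) (by simp)
      have h4 : cr R3 {x, b, c, p} = cr R3 {p} := by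
        rw [cr_insert_fresh hxR3, cr_insert_fresh hbR3, cr_insert_fresh hcR3]
      have h5 := cr_singleton_le R3 p
      simp [hxw.symm, hbw.symm, hcw.symm, hpw.symm, h4] at h3
      simp [hxp, hbp, hpc, hpw.symm] at hdp
      omega
    · exact hpw
  rw [hform] at h hd ⊢
  have hst := h.tri hx hbS hcS hxb hxc hbc hxp hbp hpc hxq hbq hcq hpq hxR3 hbR3 hcR3
  have hcard : ((S.erase b).erase c).card = n - 2 := by
    rw [Finset.card_erase_of_mem (by rw [Finset.mem_erase]; exact ⟨hbc.symm, hcS⟩),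
      Finset.card_erase_of_mem hbS]
    omega
  have hD : dg (s(x, w) ::ₘ s(x, p) ::ₘ s(x, q) ::ₘ R3) w = 2 * d + 1 := by
    simp only [dg_cons, dgE_mk, hxw, hbw, hcw, if_true, if_false] at hd ⊢
    omega
  have h6 := (ih (n - 2) (by omega) _ w _ hst hcard).oddB i d (by omega) hD
  have h7 := NN_X2.mul h6
  rw [Phi_tri hxb hxc hbc hxw hbw hcw hxp hbp hpc hxq hbq hcq hxR3 hbR3 hcR3]
  have h8 : (-1 : ℤ[X]) ^ n = (-1) ^ (n - 2) := by
    obtain ⟨m, rfl⟩ : ∃ m, n = m + 2 := ⟨n - 2, by omega⟩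
    rw [Nat.add_sub_cancel, pow_add]; ring
  rw [h8]
  have h9 : (-1) ^ (n - 2) * ((X + 2) * Phi (s(x, w) ::ₘ s(x, p) ::ₘ s(x, q) ::ₘ R3)) -
      X ^ d * (X + 1) ^ (i + 1) * (X + 2) =
      (X + 2) * ((-1) ^ (n - 2) * Phi (s(x, w) ::ₘ s(x, p) ::ₘ s(x, q) ::ₘ R3) -
        X ^ d * (X + 1) ^ (i + 1)) := by ring
  rw [h9]
  exact h7

/-- the deletion of an edge at `w` keeps the sign of `Phi` -/
lemma NN_del {S : Finset V} {w : V} {e : Sym2 V} {M : Multiset (Sym2 V)} {n : ℕ}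
    (h : St S w (e ::ₘ M)) (hn : S.card = n) : NN ((-1) ^ n * Phi M) := by
  have h1 : rk M = n := by
    apply rk_eq_card n S w M hn h.hw (fun e he => h.sub e (Multiset.mem_cons_of_mem he))
    intro U hU hne
    have h2 := h.cut U hU hne
    rw [cr_cons] at h2
    have h3 : crE U e ≤ 1 := by
      induction e using Sym2.ind with
      | _ a b =>
        rw [crE_mk]; split_ifs <;> omega
    omega
  have := NN_Phi M
  rwa [h1] at this

lemma b_mem {S : Finset V} {w x b : V} {M : Multiset (Sym2 V)} (h : St S w M)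
    (hb : s(x, b) ∈ M) (hbw : b ≠ w) : b ∈ S := by
  rcases h.sub s(x, b) hb b (by simp) with h1 | h1
  · exact h1
  · exact absurd h1 hbw

lemma case_r1 {S : Finset V} {w x b c : V} {R : Multiset (Sym2 V)} {n : ℕ}
    (h : St S w (s(x, w) ::ₘ s(x, b) ::ₘ s(x, c) ::ₘ R)) (hn : S.card = n)
    (ih : ∀ m < n, ∀ (S : Finset V) (w : V) (M : Multiset (Sym2 V)), St S w M → S.card = m →
      Bd m w M)
    (hx : x ∈ S) (hbw : b ≠ w) (hcw : c ≠ w) (hxb : x ≠ b) (hxc : x ≠ c)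
    (hR : Fr x R) :
    Bd n w (s(x, w) ::ₘ s(x, b) ::ₘ s(x, c) ::ₘ R) := by
  have hxw := h.ne_w hx
  have hbS : b ∈ S := b_mem h (x := x) (by simp) hbw
  have hcS : c ∈ S := b_mem h (x := x) (by simp) hcw
  have hbc : b ≠ c := by
    rintro rfl
    have := h.simp x hx b hbS
    rw [Multiset.count_cons, Multiset.count_cons_self, Multiset.count_cons_self] at this
    omega
  have hcard3 : 3 ≤ n := by
    have h3 : ({x, b, c} : Finset V).card = 3 := by
      rw [Finset.card_eq_three]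
      exact ⟨x, b, c, hxb, hxc, hbc, rfl⟩
    rw [← hn, ← h3]
    apply Finset.card_le_card
    intro v hv
    simp only [Finset.mem_insert, Finset.mem_singleton] at hv
    rcases hv with rfl | rfl | rfl
    · exact hx
    · exact hbS
    · exact hcS
  obtain ⟨m, rfl⟩ : ∃ m, n = m + 1 := ⟨n - 1, by omega⟩
  have hcard : (S.erase x).card = m := by
    rw [Finset.card_erase_of_mem hx]; omega
  have hcon := h.con hx hbw hcw hxb hxc hR
  have ihcon := ih m (by omega) _ w _ hcon hcard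
  have hD : dg (s(x, w) ::ₘ s(x, b) ::ₘ s(x, c) ::ₘ R) w = 1 + dg R w := by
    simp [hxw, hbw, hcw]
  have hD' : dg (s(w, b) ::ₘ s(w, c) ::ₘ R) w = 2 + dg R w := by
    simp [hbw, hcw]; ring
  have hPhi := Phi_r1 hxw hxb hxc hR
  apply Bd.mk' (by omega)
  · intro hm1; omega
  · intro i d hi hd
    rw [hD] at hd
    obtain ⟨k, rfl⟩ : ∃ k, i = k + 1 := ⟨i - 1, by omega⟩
    have h1 := ihcon.oddB' k d (by omega) (by omega)
    have h2 := NN_del h hn
    rw [Phi_series hxb hxc hR] at h2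
    have h3 := h1.add h2
    rw [hPhi]
    generalize Phi (s(w, b) ::ₘ s(w, c) ::ₘ R) = A at h3 ⊢
    generalize Phi (s(b, c) ::ₘ R) = B at h3 ⊢
    have h4 : (-1) ^ (m + 1) * (-A - B) - X ^ d * (X + 1) ^ (k + 1) * (X + 2) =
        (-1) ^ m * A - X ^ d * (X + 1) ^ (k + 1) * (X + 2) + (-1) ^ (m + 1) * -B := by
      rw [pow_succ]; ring
    rwa [h4]
  · intro i d hi hd
    by_cases ht : ∃ U ⊆ S, x ∈ U ∧ cr (s(x, w) ::ₘ s(x, b) ::ₘ s(x, c) ::ₘ R) U = 2
    · obtain ⟨U, hU, hxU, hc2⟩ := ht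
      obtain ⟨u, z, M1, N, hM, hu, hz, h1, h2⟩ := h.tight_decomp hU hxU (by simp) hc2
      rw [hM] at h hd ⊢
      exact tight_bound h hn ih hU hxU hu hz h1 h2 hi hd
    · have ht' : ∀ U ⊆ S, x ∈ U → 3 ≤ cr (s(x, w) ::ₘ s(x, b) ::ₘ s(x, c) ::ₘ R) U := by
        intro U hU hxU
        have h1 := h.cut U hU ⟨x, hxU⟩
        have h2 : cr (s(x, w) ::ₘ s(x, b) ::ₘ s(x, c) ::ₘ R) U ≠ 2 := fun h' =>
          ht ⟨U, hU, hxU, h'⟩
        omega
      by_cases hbcR : s(b, c) ∈ R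
      · exact tri_bound h hn ih hx hbS hcS hxb hxc hbc hR hbcR ht' hi hd
      · have hdel := h.del hx hbw hcw hxb hxc hR hbc hbcR ht'
        have ihdel := ih m (by omega) _ w _ hdel hcard
        have hD'' : dg (s(b, c) ::ₘ R) w = dg R w := by
          simp [hbw, hcw]
        rw [hD] at hd
        have h1 := ihcon.evenB' i (d + 1) (by omega) (by omega)
        have h2 := ihdel.evenB' i d (by omega) (by omega)
        have h3 := h1.add h2
        rw [hPhi]
        generalize Phi (s(w, b) ::ₘ s(w, c) ::ₘ R) = A at h3 ⊢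
        generalize Phi (s(b, c) ::ₘ R) = B at h3 ⊢
        have h4 : (-1) ^ (m + 1) * (-A - B) - X ^ d * (X + 1) ^ (i + 1) * (X + 2) =
            (-1) ^ m * A - X ^ (d + 1) * (X + 1) ^ i * (X + 2) +
            ((-1) ^ m * B - X ^ d * (X + 1) ^ i * (X + 2)) := by
          rw [pow_succ]; ring
        rwa [h4]

theorem main : ∀ (n : ℕ) (S : Finset V) (w : V) (M : Multiset (Sym2 V)), St S w M →
    S.card = n → Bd n w M := by
  intro n
  induction n using Nat.strong_induction_on with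
  | _ n ih =>
    intro S w M h hn
    rcases Nat.eq_zero_or_pos n with rfl | hpos
    · have hS0 : S = ∅ := Finset.card_eq_zero.mp hn
      subst hS0
      have hM : M = 0 := by
        rw [Multiset.eq_zero_iff_forall_notMem]
        intro e he
        have hsub := h.sub e he
        induction e using Sym2.ind with
        | _ a b =>
          have ha := hsub a (by simp)
          have hb := hsub b (by simp)
          simp only [Finset.notMem_empty, false_or] at ha hb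
          subst ha; subst hb
          exact h.noloop _ he
      subst hM
      refine ⟨?_, ?_, ?_, ?_⟩
      · intro j d hj hd
        rw [dg_zero] at hd
        have hj0 : j = 0 := by omega
        have hd0 : d = 0 := by omega
        subst hj0; subst hd0
        rw [Phi_zero]
        simpa using NN_zero
      · intro i d hi; omega
      · intro i d hi; omega
      · intro i d hi; omega
    · obtain ⟨x, hx, hxw⟩ := h.exists_nbr (Finset.card_pos.mp (by omega))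
      obtain ⟨b, c, R, rfl, hR, hxw', hxb, hxc⟩ := h.decomp' hx hxw
      obtain ⟨m, rfl⟩ : ∃ m, n = m + 1 := ⟨n - 1, by omega⟩
      have hcard : (S.erase x).card = m := by
        rw [Finset.card_erase_of_mem hx]; omega
      have hm0 : ∀ b', b' ∈ S → x ≠ b' → m ≠ 0 := by
        intro b' hb' hxb' hm
        subst hm
        rw [Finset.card_eq_zero] at hcard
        have : b' ∈ S.erase x := by rw [Finset.mem_erase]; exact ⟨hxb'.symm, hb'⟩
        rw [hcard] at this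
        simp at this
      by_cases hbw : b = w
      · subst hbw
        by_cases hcw : c = b
        · subst hcw
          exact case_r3 h hx hR (ih m (by omega) _ _ _ (h.r3 hx hR) hcard)
        · exact case_r2 h hx hcw hxc hR (hm0 c (b_mem h (x := x) (by simp) hcw) hxc)
            (ih m (by omega) _ _ _ (h.r2 hx hcw hxc hR) hcard)
      · by_cases hcw : c = w
        · subst hcw
          rw [Multiset.cons_swap (s(x, b))] at h ⊢
          exact case_r2 h hx hbw hxb hR (hm0 b (b_mem h (x := x) (by simp) hbw) hxb)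
            (ih m (by omega) _ _ _ (h.r2 hx hbw hxb hR) hcard)
        · exact case_r1 h hn ih hx hbw hcw hxb hxc hR

end Pool.Agent.FlowCubic
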