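import Pool.Agent.Lib_MP_76bad1_co.Rank

/-!
# The polynomial `Phi` and its reduction rules
-/

open Polynomial

namespace Pool.Agent.FlowCubic

set_option linter.unusedSectionVars false

variable {V : Type*} [DecidableEq V]

noncomputable def term (M : Multiset (Sym2 V)) : ℤ[X] :=
  (-1) ^ (rk M) * (X - 1) ^ (Multiset.card M - rk M)

noncomputable def Phi (M : Multiset (Sym2 V)) : ℤ[X] := (M.powerset.map term).sum

lemma Phi_zero : Phi (0 : Multiset (Sym2 V)) = 1 := by
  simp [Phi, term, rk_zero]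

lemma Phi_cons (e : Sym2 V) (M : Multiset (Sym2 V)) :
    Phi (e ::ₘ M) = Phi M + (M.powerset.map (fun Z => term (e ::ₘ Z))).sum := by
  unfold Phi
  rw [Multiset.powerset_cons, Multiset.map_add, Multiset.sum_add, Multiset.map_map]
  rfl

lemma powerset_con (a b : V) (M : Multiset (Sym2 V)) :
    (con a b M).powerset = M.powerset.map (con a b) := by
  induction M using Multiset.induction_on with
  | empty => simp
  | cons e M ih =>
    rw [con_cons, Multiset.powerset_cons, Multiset.powerset_cons, ih, Multiset.map_add,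
      Multiset.map_map, Multiset.map_map]
    congr 1
    apply Multiset.map_congr rfl
    intro Z _
    simp

theorem Phi_dc {a b : V} (hab : a ≠ b) (M : Multiset (Sym2 V)) :
    Phi (s(a, b) ::ₘ M) = Phi M - Phi (con a b M) := by
  rw [Phi_cons, sub_eq_add_neg]
  congr 1
  unfold Phi
  rw [powerset_con, Multiset.map_map, ← Multiset.sum_map_neg', Multiset.map_map]
  congr 1
  apply Multiset.map_congr rfl
  intro Z _
  simp only [Function.comp]
  unfold term
  rw [rk_con hab, Multiset.card_cons, card_con, Nat.add_sub_add_right, pow_succ]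
  ring

theorem Phi_loop (a : V) (M : Multiset (Sym2 V)) :
    Phi (s(a, a) ::ₘ M) = X * Phi M := by
  rw [Phi_cons]
  have h : ∀ Z : Multiset (Sym2 V), term (s(a, a) ::ₘ Z) = (X - 1) * term Z := by
    intro Z
    have h0 : vec (s(a, a)) = 0 := by
      rw [vec_mk, ← Finsupp.single_add]
      have : (1 : ZMod 2) + 1 = 0 := by decide
      simp [this]
    have h1 : rk (s(a, a) ::ₘ Z) = rk Z := by
      apply rk_cons_mem
      rw [h0]
      exact Submodule.zero_mem _
    unfold term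
    rw [h1, Multiset.card_cons]
    have h2 := rk_le_card Z
    have h3 : Multiset.card Z + 1 - rk Z = (Multiset.card Z - rk Z) + 1 := by omega
    rw [h3, pow_succ]
    ring
  simp only [h]
  rw [Multiset.sum_map_mul_left]
  unfold Phi
  ring

/-- `x` is not an endpoint of any edge -/
def Fr (x : V) (R : Multiset (Sym2 V)) : Prop := ∀ e ∈ R, x ∉ e

lemma Fr_cons {x a b : V} {R : Multiset (Sym2 V)} :
    Fr x (s(a, b) ::ₘ R) ↔ (x ≠ a ∧ x ≠ b ∧ Fr x R) := by
  unfold Fr
  constructor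
  · intro h
    have h1 := h s(a, b) (Multiset.mem_cons_self _ _)
    rw [Sym2.mem_iff, not_or] at h1
    exact ⟨h1.1, h1.2, fun e he => h e (Multiset.mem_cons_of_mem he)⟩
  · rintro ⟨h1, h2, h3⟩ e he
    rcases Multiset.mem_cons.mp he with rfl | he
    · rw [Sym2.mem_iff, not_or]; exact ⟨h1, h2⟩
    · exact h3 e he

lemma Fr_zero {x : V} : Fr x 0 := by
  intro e he; simp at he

lemma con_fresh {a b : V} {R : Multiset (Sym2 V)} (h : Fr b R) : con a b R = R := by
  induction R using Multiset.induction_on with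
  | empty => simp
  | cons e M ih =>
    have h1 : b ∉ e := h e (Multiset.mem_cons_self _ _)
    rw [con_cons, ih (fun e he => h e (Multiset.mem_cons_of_mem he))]
    congr 1
    induction e using Sym2.ind with
    | _ c d =>
      rw [Sym2.mem_iff, not_or] at h1
      simp [sub, Ne.symm h1.1, Ne.symm h1.2]

lemma sub_self_left (a b : V) : sub a b a = a := by simp [sub]
lemma sub_self_right (a b : V) : sub a b b = a := by simp [sub]
lemma sub_of_ne {a b c : V} (h : c ≠ b) : sub a b c = c := by simp [sub, h]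

theorem Phi_pend {x b : V} (hxb : x ≠ b) {R : Multiset (Sym2 V)} (h : Fr x R) :
    Phi (s(x, b) ::ₘ R) = 0 := by
  rw [Sym2.eq_swap, Phi_dc hxb.symm, con_fresh h, sub_self]

theorem Phi_series {x b c : V} (hxb : x ≠ b) (hxc : x ≠ c) {R : Multiset (Sym2 V)} (h : Fr x R) :
    Phi (s(x, b) ::ₘ s(x, c) ::ₘ R) = - Phi (s(b, c) ::ₘ R) := by
  rw [show s(x, b) = s(b, x) from Sym2.eq_swap, Phi_dc hxb.symm, Phi_pend hxc h, con_cons,
    con_fresh h]
  simp [sub_self_right, sub_of_ne hxc.symm]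

theorem Phi_par (e : Sym2 V) (R : Multiset (Sym2 V)) :
    Phi (e ::ₘ e ::ₘ R) = (1 + X) * Phi (e ::ₘ R) - X * Phi R := by
  induction e using Sym2.ind with
  | _ a b =>
    by_cases hab : a = b
    · subst hab
      rw [Phi_loop, Phi_loop]
      ring
    · rw [Phi_dc hab (s(a, b) ::ₘ R), con_cons]
      have e1 : Sym2.map (sub a b) s(a, b) = s(a, a) := by
        simp [sub, hab]
      rw [e1, Phi_loop, Phi_dc hab R]
      ring

theorem Phi_r3 {x w : V} (hxw : x ≠ w) {R : Multiset (Sym2 V)} (h : Fr x R) :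
    Phi (s(x, w) ::ₘ s(x, w) ::ₘ s(x, w) ::ₘ R) = - (X * (X + 1)) * Phi R := by
  rw [Phi_par, Phi_par, Phi_pend hxw h]
  ring

theorem Phi_r2 {x w b : V} (hxw : x ≠ w) (hxb : x ≠ b) {R : Multiset (Sym2 V)} (h : Fr x R) :
    Phi (s(x, w) ::ₘ s(x, w) ::ₘ s(x, b) ::ₘ R) = - (X + 1) * Phi (s(w, b) ::ₘ R) := by
  rw [Phi_par, Phi_series hxw hxb h, Phi_pend hxb h]
  ring

theorem Phi_r1 {x w b c : V} (hxw : x ≠ w) (hxb : x ≠ b) (hxc : x ≠ c) {R : Multiset (Sym2 V)}
    (h : Fr x R) :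
    Phi (s(x, w) ::ₘ s(x, b) ::ₘ s(x, c) ::ₘ R) =
      - Phi (s(w, b) ::ₘ s(w, c) ::ₘ R) - Phi (s(b, c) ::ₘ R) := by
  rw [show s(x, w) = s(w, x) from Sym2.eq_swap, Phi_dc hxw.symm, Phi_series hxb hxc h, con_cons,
    con_cons, con_fresh h]
  simp only [Sym2.map_mk]
  rw [sub_self_right, sub_of_ne hxb.symm, sub_of_ne hxc.symm]
  ring

/-- the triangle rule -/
theorem Phi_tri {x y z w p q : V} (hxy : x ≠ y) (hxz : x ≠ z) (hyz : y ≠ z)
    (hxw : x ≠ w) (hyw : y ≠ w) (hzw : z ≠ w) (hxp : x ≠ p) (hyp : y ≠ p) (hzp : z ≠ p)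
    (hxq : x ≠ q) (hyq : y ≠ q) (hzq : z ≠ q)
    {R : Multiset (Sym2 V)} (hx : Fr x R) (hy : Fr y R) (hz : Fr z R) :
    Phi (s(x, w) ::ₘ s(y, p) ::ₘ s(z, q) ::ₘ s(x, y) ::ₘ s(x, z) ::ₘ s(y, z) ::ₘ R) =
      (X + 2) * Phi (s(x, w) ::ₘ s(x, p) ::ₘ s(x, q) ::ₘ R) := by
  -- first: bring s(x,y) to the front
  have e1 : (s(x, w) ::ₘ s(y, p) ::ₘ s(z, q) ::ₘ s(x, y) ::ₘ s(x, z) ::ₘ s(y, z) ::ₘ R)
      = s(x, y) ::ₘ s(x, w) ::ₘ s(x, z) ::ₘ s(y, z) ::ₘ s(y, p) ::ₘ s(z, q) ::ₘ R := by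
    simp only [← Multiset.singleton_add]; abel
  rw [e1, Phi_dc hxy]
  -- deletion part: x has degree 2, y has degree 2
  have d1 : Phi (s(x, w) ::ₘ s(x, z) ::ₘ s(y, z) ::ₘ s(y, p) ::ₘ s(z, q) ::ₘ R)
      = Phi (s(x, w) ::ₘ s(x, p) ::ₘ s(x, q) ::ₘ R) := by
    have e2 : (s(x, w) ::ₘ s(x, z) ::ₘ s(y, z) ::ₘ s(y, p) ::ₘ s(z, q) ::ₘ R)
        = s(x, z) ::ₘ s(z, q) ::ₘ s(y, z) ::ₘ s(y, p) ::ₘ s(x, w) ::ₘ R := by
      simp only [← Multiset.singleton_add]; abel
    rw [e2, Phi_dc hxz]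
    have e3 : (s(z, q) ::ₘ s(y, z) ::ₘ s(y, p) ::ₘ s(x, w) ::ₘ R)
        = s(x, w) ::ₘ s(z, q) ::ₘ s(y, z) ::ₘ s(y, p) ::ₘ R := by
      simp only [← Multiset.singleton_add]; abel
    rw [e3, Phi_pend hxw (by
      rw [Fr_cons, Fr_cons, Fr_cons]
      exact ⟨hxz, hxq, hxy, hxz, hxy, hxp, hx⟩)]
    simp only [con_cons, Sym2.map_mk, con_fresh hz]
    rw [sub_self_right, sub_of_ne hzq.symm, sub_of_ne hyz, sub_of_ne hzp.symm, sub_self_left,
      sub_of_ne hzw.symm]
    have e4 : (s(x, w) ::ₘ s(x, q) ::ₘ s(y, x) ::ₘ s(y, p) ::ₘ R)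
        = s(y, x) ::ₘ s(y, p) ::ₘ s(x, q) ::ₘ s(x, w) ::ₘ R := by
      simp only [← Multiset.singleton_add]; abel
    rw [e4, Phi_series hxy.symm hyp (by
      rw [Fr_cons, Fr_cons]
      exact ⟨hxy.symm, hyq, hxy.symm, hyw, hy⟩)]
    have e5 : (s(x, p) ::ₘ s(x, q) ::ₘ s(x, w) ::ₘ R)
        = (s(x, w) ::ₘ s(x, p) ::ₘ s(x, q) ::ₘ R) := by
      simp only [← Multiset.singleton_add]; abel
    rw [e5]
    ring
  rw [d1]
  -- contraction part
  have d2 : Phi (con x y (s(x, w) ::ₘ s(x, z) ::ₘ s(y, z) ::ₘ s(y, p) ::ₘ s(z, q) ::ₘ R))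
      = - (1 + X) * Phi (s(x, w) ::ₘ s(x, p) ::ₘ s(x, q) ::ₘ R) := by
    simp only [con_cons, Sym2.map_mk, con_fresh hy]
    rw [sub_self_left, sub_of_ne hyw.symm, sub_of_ne hyz.symm, sub_self_right,
      sub_of_ne hyp.symm, sub_of_ne hyq.symm]
    have e2 : (s(x, w) ::ₘ s(x, z) ::ₘ s(x, z) ::ₘ s(x, p) ::ₘ s(z, q) ::ₘ R)
        = s(x, z) ::ₘ s(x, z) ::ₘ s(z, q) ::ₘ s(x, w) ::ₘ s(x, p) ::ₘ R := by
      simp only [← Multiset.singleton_add]; abel
    have hz2 : Fr z (s(x, w) ::ₘ s(x, p) ::ₘ R) := by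
      rw [Fr_cons, Fr_cons]
      exact ⟨hxz.symm, hzw, hxz.symm, hzp, hz⟩
    rw [e2, Phi_par, Phi_pend hzq hz2, Phi_dc hxz, Phi_pend hzq hz2]
    simp only [con_cons, Sym2.map_mk, con_fresh hz]
    rw [sub_self_left, sub_of_ne hzw.symm, sub_self_right,
      sub_of_ne hzp.symm, sub_of_ne hzq.symm]
    have e5 : (s(x, q) ::ₘ s(x, w) ::ₘ s(x, p) ::ₘ R)
        = (s(x, w) ::ₘ s(x, p) ::ₘ s(x, q) ::ₘ R) := by
      simp only [← Multiset.singleton_add]; abel
    rw [e5]
    ring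
  rw [d2]
  ring

/-- the 2-edge-cut rule -/
theorem Phi_cut (U : Finset V) {w z : V} (hw : w ∉ U) (hz : z ∉ U) (N : Multiset (Sym2 V))
    (hN : ∀ e ∈ N, ∀ v ∈ e, v ∉ U) :
    ∀ (M : Multiset (Sym2 V)) (_ : ∀ e ∈ M, ∀ v ∈ e, v ∈ U) (x u : V), x ∈ U → u ∈ U →
      X * Phi (s(x, w) ::ₘ s(u, z) ::ₘ (M + N)) =
        Phi (s(x, w) ::ₘ s(u, w) ::ₘ M) * Phi (s(w, z) ::ₘ N) := by
  intro M
  induction' hn : Multiset.card M with n ih generalizing M
  · intro _ x u hx hu
    have hM0 : M = 0 := Multiset.card_eq_zero.mp hn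
    subst hM0
    have hxw : x ≠ w := fun h => hw (h ▸ hx)
    have huw : u ≠ w := fun h => hw (h ▸ hu)
    have hxz : x ≠ z := fun h => hz (h ▸ hx)
    have huz : u ≠ z := fun h => hz (h ▸ hu)
    have hxN : Fr x N := fun e he hxe => hN e he x hxe hx
    rw [zero_add]
    by_cases hxu : x = u
    · subst hxu
      rw [Phi_series hxw hxz hxN, Phi_par, Phi_pend hxw Fr_zero, Phi_zero]
      ring
    · rw [Phi_pend hxw, Phi_pend hxw]
      · ring
      · rw [Fr_cons]
        exact ⟨hxu, hxw, Fr_zero⟩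
      · rw [Fr_cons]
        exact ⟨hxu, hxz, hxN⟩
  · intro hM x u hx hu
    obtain ⟨e, he⟩ : ∃ e, e ∈ M := by
      apply Multiset.exists_mem_of_ne_zero
      rintro rfl
      simp at hn
    obtain ⟨M', rfl⟩ := Multiset.exists_cons_of_mem he
    have hM' : ∀ e ∈ M', ∀ v ∈ e, v ∈ U := fun e he => hM e (Multiset.mem_cons_of_mem he)
    have hcard : Multiset.card M' = n := by
      rw [Multiset.card_cons] at hn; omega
    induction e using Sym2.ind with
    | _ a b =>
      have ha : a ∈ U := hM s(a, b) (Multiset.mem_cons_self _ _) a (by simp)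
      have hb : b ∈ U := hM s(a, b) (Multiset.mem_cons_self _ _) b (by simp)
      have e1 : (s(x, w) ::ₘ s(u, z) ::ₘ (s(a, b) ::ₘ M' + N))
          = s(a, b) ::ₘ (s(x, w) ::ₘ s(u, z) ::ₘ (M' + N)) := by
        simp only [← Multiset.singleton_add]; abel
      have e2 : (s(x, w) ::ₘ s(u, w) ::ₘ (s(a, b) ::ₘ M'))
          = s(a, b) ::ₘ (s(x, w) ::ₘ s(u, w) ::ₘ M') := by
        simp only [← Multiset.singleton_add]; abel
      rw [e1, e2]
      have ih1 := ih M' hcard hM' x u hx hu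
      by_cases hab : a = b
      · subst hab
        rw [Phi_loop, Phi_loop, mul_left_comm, ih1]
        ring
      · rw [Phi_dc hab, Phi_dc hab]
        have hwb : w ≠ b := fun h => hw (h ▸ hb)
        have hzb : z ≠ b := fun h => hz (h ▸ hb)
        have hNb : Fr b N := fun e he hbe => hN e he b hbe hb
        have hsub : ∀ v ∈ U, sub a b v ∈ U := by
          intro v hv
          unfold sub
          split_ifs
          · exact ha
          · exact hv
        have ih2 := ih (con a b M') (by rw [card_con, hcard]) (by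
          intro e he v hv
          obtain ⟨e', he', rfl⟩ := Multiset.mem_map.mp he
          obtain ⟨v', hv', rfl⟩ := Sym2.mem_map.mp hv
          exact hsub v' (hM' e' he' v' hv')) (sub a b x) (sub a b u) (hsub x hx) (hsub u hu)
        simp only [con_cons, Sym2.map_mk, con_add, con_fresh hNb]
        rw [sub_of_ne hwb, sub_of_ne hzb]
        rw [mul_sub, ih1, ih2]
        ring

/-- nonnegative coefficients -/
def NN (P : ℤ[X]) : Prop := ∀ i, 0 ≤ P.coeff i

lemma NN.add {P Q : ℤ[X]} (hP : NN P) (hQ : NN Q) : NN (P + Q) := by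
  intro i; rw [coeff_add]; exact add_nonneg (hP i) (hQ i)

lemma NN.mul {P Q : ℤ[X]} (hP : NN P) (hQ : NN Q) : NN (P * Q) := by
  intro i; rw [coeff_mul]
  exact Finset.sum_nonneg (fun x _ => mul_nonneg (hP _) (hQ _))

lemma NN_zero : NN 0 := by intro i; simp

lemma NN_one : NN 1 := by
  intro i; rw [coeff_one]; split_ifs <;> norm_num

lemma NN_X : NN X := by
  intro i; rw [coeff_X]; split_ifs <;> norm_num

lemma NN.pow {P : ℤ[X]} (hP : NN P) (n : ℕ) : NN (P ^ n) := by
  induction n with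
  | zero => rw [pow_zero]; exact NN_one
  | succ n ih => rw [pow_succ]; exact ih.mul hP

lemma NN_X1 : NN (X + 1) := NN_X.add NN_one

lemma NN_X2 : NN (X + 2) := by
  have h : (X + 2 : ℤ[X]) = X + 1 + 1 := by ring
  rw [h]; exact NN_X1.add NN_one

lemma Phi_bridge {e : Sym2 V} {M : Multiset (Sym2 V)} (h : vec e ∉ sp M) :
    Phi (e ::ₘ M) = 0 := by
  rw [Phi_cons]
  have h2 : (M.powerset.map (fun Z => term (e ::ₘ Z))).sum = (M.powerset.map (fun Z => - term Z)).sum := by
    congr 1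
    apply Multiset.map_congr rfl
    intro Z hZ
    have hZ' : Z ≤ M := Multiset.mem_powerset.mp hZ
    have h3 : vec e ∉ sp Z := by
      intro h4; apply h
      have : sp Z ≤ sp M := by
        unfold sp
        apply Submodule.span_mono
        apply Set.image_mono
        intro e he
        exact Multiset.mem_of_le hZ' he
      exact this h4
    unfold term
    rw [rk_cons_not_mem h3, Multiset.card_cons, Nat.add_sub_add_right, pow_succ]
    ring
  rw [h2, Multiset.sum_map_neg]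
  unfold Phi
  ring

theorem NN_Phi (M : Multiset (Sym2 V)) : NN ((-1) ^ (rk M) * Phi M) := by
  induction' hn : Multiset.card M with n ih generalizing M
  · have hM0 : M = 0 := Multiset.card_eq_zero.mp hn
    subst hM0
    rw [rk_zero, Phi_zero]
    simpa using NN_one
  · obtain ⟨e, he⟩ : ∃ e, e ∈ M := by
      apply Multiset.exists_mem_of_ne_zero
      rintro rfl
      simp at hn
    obtain ⟨M', rfl⟩ := Multiset.exists_cons_of_mem he
    have hcard : Multiset.card M' = n := by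
      rw [Multiset.card_cons] at hn; omega
    by_cases h : vec e ∈ sp M'
    · induction e using Sym2.ind with
      | _ a b =>
        by_cases hab : a = b
        · subst hab
          rw [Phi_loop, rk_cons_mem h]
          have := NN_X.mul (ih M' hcard)
          rw [mul_left_comm]
          exact this
        · have h1 := rk_con hab M'
          rw [rk_cons_mem h, Phi_dc hab]
          have h2 := (ih M' hcard).add (ih (con a b M') (by rw [card_con, hcard]))
          have h3 : (-1 : ℤ[X]) ^ (rk M') * (Phi M' - Phi (con a b M')) =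
              (-1) ^ (rk M') * Phi M' + (-1) ^ (rk (con a b M')) * Phi (con a b M') := by
            rw [rk_cons_mem h] at h1
            rw [h1, pow_succ]
            ring
          rw [h3]
          exact h2
    · rw [Phi_bridge h]
      simpa using NN_zero

end Pool.Agent.FlowCubic
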