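import Mathlib

/-!
# The polynomial `T(0, X)` of a multigraph: rank expansion and deletion-contraction

A multigraph is a multiset of unordered pairs.  `Phi M = ∑_{Z ⊆ M} (-1)^{rk Z} (X-1)^{|Z| - rk Z}`.
-/

open Polynomial

namespace Pool.Agent.FlowCubic

set_option linter.unusedSectionVars false

variable {V : Type*} [DecidableEq V]

/-- the vector of an edge over GF(2) -/
noncomputable def vec : Sym2 V → (V →₀ ZMod 2) :=
  Sym2.lift ⟨fun a b => Finsupp.single a 1 + Finsupp.single b 1, fun _ _ => add_comm _ _⟩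

@[simp] lemma vec_mk (a b : V) :
    vec s(a, b) = Finsupp.single a (1 : ZMod 2) + Finsupp.single b 1 := rfl

noncomputable def sp (M : Multiset (Sym2 V)) : Submodule (ZMod 2) (V →₀ ZMod 2) :=
  Submodule.span (ZMod 2) (vec '' {e | e ∈ M})

lemma sp_cons (e : Sym2 V) (M : Multiset (Sym2 V)) :
    sp (e ::ₘ M) = Submodule.span (ZMod 2) {vec e} ⊔ sp M := by
  unfold sp
  rw [← Submodule.span_union]
  congr 1
  ext v
  simp only [Set.mem_image, Set.mem_ofPred_eq, Multiset.mem_cons, Set.singleton_union,
    Set.mem_insert_iff]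
  constructor
  · rintro ⟨x, rfl | hx, rfl⟩
    · left; rfl
    · right; exact ⟨x, hx, rfl⟩
  · rintro (rfl | ⟨x, hx, rfl⟩)
    · exact ⟨e, Or.inl rfl, rfl⟩
    · exact ⟨x, Or.inr hx, rfl⟩

lemma vec_mem_sp {e : Sym2 V} {M : Multiset (Sym2 V)} (h : e ∈ M) : vec e ∈ sp M :=
  Submodule.subset_span ⟨e, h, rfl⟩

instance sp_fd (M : Multiset (Sym2 V)) : FiniteDimensional (ZMod 2) (sp M) := by
  unfold sp
  apply FiniteDimensional.span_of_finite
  apply Set.Finite.image
  exact Set.Finite.subset (M.toFinset.finite_toSet) (by intro e he; simpa using he)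

noncomputable def rk (M : Multiset (Sym2 V)) : ℕ := Module.finrank (ZMod 2) (sp M)

lemma rk_zero : rk (0 : Multiset (Sym2 V)) = 0 := by
  have h : sp (0 : Multiset (Sym2 V)) = ⊥ := by
    unfold sp
    rw [Submodule.span_eq_bot]
    rintro x ⟨e, he, -⟩
    exact absurd he (by simp)
  unfold rk
  rw [h, finrank_bot]

lemma rk_cons_mem {e : Sym2 V} {M : Multiset (Sym2 V)} (h : vec e ∈ sp M) :
    rk (e ::ₘ M) = rk M := by
  unfold rk
  rw [sp_cons]
  have : Submodule.span (ZMod 2) {vec e} ⊔ sp M = sp M := by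
    apply sup_eq_right.mpr
    rw [Submodule.span_le]
    simpa using h
  rw [this]

lemma rk_cons_not_mem {e : Sym2 V} {M : Multiset (Sym2 V)} (h : vec e ∉ sp M) :
    rk (e ::ₘ M) = rk M + 1 := by
  unfold rk
  rw [sp_cons]
  have hne : vec e ≠ 0 := by
    intro h0; apply h; rw [h0]; exact Submodule.zero_mem _
  have h1 := Submodule.finrank_sup_add_finrank_inf_eq (Submodule.span (ZMod 2) {vec e}) (sp M)
  have h2 : Submodule.span (ZMod 2) {vec e} ⊓ sp M = ⊥ := by
    rw [eq_bot_iff]
    intro v hv
    obtain ⟨hv1, hv2⟩ := Submodule.mem_inf.mp hv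
    obtain ⟨c, rfl⟩ := Submodule.mem_span_singleton.mp hv1
    by_cases hc : c = 0
    · simp [hc]
    · exfalso
      apply h
      have := (sp M).smul_mem c⁻¹ hv2
      rwa [smul_smul, inv_mul_cancel₀ hc, one_smul] at this
  rw [h2, finrank_bot, add_zero, finrank_span_singleton hne] at h1
  omega

lemma rk_le_card (M : Multiset (Sym2 V)) : rk M ≤ Multiset.card M := by
  induction M using Multiset.induction_on with
  | empty => simp [rk_zero]
  | cons e M ih =>
    by_cases h : vec e ∈ sp M
    · rw [rk_cons_mem h, Multiset.card_cons]; omega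
    · rw [rk_cons_not_mem h, Multiset.card_cons]; omega

lemma rk_le_cons (e : Sym2 V) (M : Multiset (Sym2 V)) : rk M ≤ rk (e ::ₘ M) := by
  by_cases h : vec e ∈ sp M
  · rw [rk_cons_mem h]
  · rw [rk_cons_not_mem h]; omega

/-- replace `b` by `a` -/
def sub (a b : V) : V → V := fun v => if v = b then a else v

/-- contraction of the edge `ab`: the vertex `b` is replaced by `a` in all edges -/
def con (a b : V) (M : Multiset (Sym2 V)) : Multiset (Sym2 V) := M.map (Sym2.map (sub a b))

@[simp] lemma con_cons (a b : V) (e : Sym2 V) (M : Multiset (Sym2 V)) :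
    con a b (e ::ₘ M) = Sym2.map (sub a b) e ::ₘ con a b M := by
  simp [con]

@[simp] lemma con_zero (a b : V) : con a b 0 = 0 := by simp [con]

lemma con_add (a b : V) (M N : Multiset (Sym2 V)) : con a b (M + N) = con a b M + con a b N := by
  simp [con]

lemma card_con (a b : V) (M : Multiset (Sym2 V)) :
    Multiset.card (con a b M) = Multiset.card M := by
  simp [con]

lemma lmap_vec (φ : V → V) (e : Sym2 V) :
    Finsupp.lmapDomain (ZMod 2) (ZMod 2) φ (vec e) = vec (Sym2.map φ e) := by
  induction e using Sym2.ind with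
  | _ a b =>
    simp [Finsupp.mapDomain_add, Finsupp.mapDomain_single]

lemma map_sp (a b : V) (M : Multiset (Sym2 V)) :
    (sp M).map (Finsupp.lmapDomain (ZMod 2) (ZMod 2) (sub a b)) = sp (con a b M) := by
  unfold sp con
  rw [Submodule.map_span]
  congr 1
  ext v
  simp only [Set.mem_image, Set.mem_ofPred_eq, Multiset.mem_map, exists_exists_and_eq_and,
    lmap_vec]

lemma ker_lmap {a b : V} (_hab : a ≠ b) (f : V →₀ ZMod 2)
    (hf : Finsupp.lmapDomain (ZMod 2) (ZMod 2) (sub a b) f = 0) :
    f = (f b) • vec s(a, b) := by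
  have h1 : f = f.erase b + Finsupp.single b (f b) := (Finsupp.erase_add_single b f).symm
  have h2 : Finsupp.mapDomain (sub a b) (f.erase b) = f.erase b := by
    conv_rhs => rw [← Finsupp.mapDomain_id (v := f.erase b)]
    apply Finsupp.mapDomain_congr
    intro x hx
    have : x ≠ b := by
      rintro rfl
      simp at hx
    simp [sub, this]
  have h3 : Finsupp.mapDomain (sub a b) (Finsupp.single b (f b)) = Finsupp.single a (f b) := by
    rw [Finsupp.mapDomain_single]; simp [sub]
  rw [Finsupp.lmapDomain_apply, h1, Finsupp.mapDomain_add, h2] at hf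
  have h4 : (f.erase b + Finsupp.single b (f b)) b = f b := by rw [← h1]
  rw [h3] at hf
  have h5 : f.erase b = Finsupp.single a (f b) := by
    have hx : f.erase b = - Finsupp.single a (f b) := eq_neg_of_add_eq_zero_left hf
    rw [hx]
    rw [← Finsupp.single_neg]
    congr 1
    exact ZMod.neg_eq_self_mod_two _
  conv_lhs => rw [h1, h5]
  simp [vec_mk, smul_add]

lemma finrank_aux {K E F : Type*} [Field K] [AddCommGroup E] [Module K E] [AddCommGroup F]
    [Module K F] (W : Submodule K E) [FiniteDimensional K W] (L : E →ₗ[K] F) (v : E) (hv : v ∈ W)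
    (hne : v ≠ 0) (hLv : L v = 0) (hker : ∀ f, L f = 0 → ∃ c : K, f = c • v) :
    Module.finrank K W = Module.finrank K (W.map L) + 1 := by
  have h1 := LinearMap.finrank_range_add_finrank_ker (L.domRestrict W)
  have h2 : LinearMap.range (L.domRestrict W) = W.map L := by
    ext v
    simp [LinearMap.mem_range, Submodule.mem_map]
  have h3 : Module.finrank K (LinearMap.ker (L.domRestrict W)) = 1 := by
    apply finrank_eq_one (⟨⟨v, hv⟩, by simpa [LinearMap.mem_ker] using hLv⟩ :
      LinearMap.ker (L.domRestrict W))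
    · intro h0
      apply hne
      have := congrArg Subtype.val (congrArg Subtype.val h0)
      simpa using this
    · rintro ⟨⟨f, hfW⟩, hf⟩
      obtain ⟨c, hc⟩ := hker f (by simpa [LinearMap.mem_ker] using hf)
      refine ⟨c, ?_⟩
      apply Subtype.ext
      apply Subtype.ext
      simp only [Submodule.coe_smul]
      exact hc.symm
  rw [← h2]
  omega

theorem rk_con {a b : V} (hab : a ≠ b) (M : Multiset (Sym2 V)) :
    rk (s(a, b) ::ₘ M) = rk (con a b M) + 1 := by
  have e1 : Sym2.map (sub a b) s(a, b) = s(a, a) := by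
    simp [sub, hab]
  have e2 : vec (s(a, a)) = 0 := by
    rw [vec_mk, ← Finsupp.single_add]
    have : (1 : ZMod 2) + 1 = 0 := by decide
    simp [this]
  have hmap : (sp (s(a, b) ::ₘ M)).map
      (Finsupp.lmapDomain (ZMod 2) (ZMod 2) (sub a b)) = sp (con a b M) := by
    rw [map_sp, con_cons, sp_cons, e1, e2]
    simp
  unfold rk
  rw [← hmap]
  apply finrank_aux _ _ (vec s(a, b)) (vec_mem_sp (Multiset.mem_cons_self _ _))
  · intro h0
    have := DFunLike.congr_fun h0 a
    simp [vec_mk, Ne.symm hab] at this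
  · rw [lmap_vec, e1, e2]
  · intro f hf
    exact ⟨f b, ker_lmap hab f hf⟩

end Pool.Agent.FlowCubic
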