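import Pool.Agent.Lib_MP_76bad1_co.Phi

/-!
# Degrees, cuts and the states of the induction
-/

open Polynomial

namespace Pool.Agent.FlowCubic

set_option linter.unusedSectionVars false

variable {V : Type*} [DecidableEq V]

/-- contribution of an edge to the degree of `x` (a loop counts twice) -/
def dgE (x : V) : Sym2 V → ℕ :=
  Sym2.lift ⟨fun a b => (if a = x then 1 else 0) + (if b = x then 1 else 0),
    fun _ _ => add_comm _ _⟩

@[simp] lemma dgE_mk (x a b : V) :
    dgE x s(a, b) = (if a = x then 1 else 0) + (if b = x then 1 else 0) := rfl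

/-- degree -/
def dg (M : Multiset (Sym2 V)) (x : V) : ℕ := (M.map (dgE x)).sum

@[simp] lemma dg_zero (x : V) : dg (0 : Multiset (Sym2 V)) x = 0 := by simp [dg]

@[simp] lemma dg_cons (e : Sym2 V) (M : Multiset (Sym2 V)) (x : V) :
    dg (e ::ₘ M) x = dgE x e + dg M x := by simp [dg]

@[simp] lemma dg_add (M N : Multiset (Sym2 V)) (x : V) :
    dg (M + N) x = dg M x + dg N x := by simp [dg]

/-- whether an edge leaves the set `U` -/
def crE (U : Finset V) : Sym2 V → ℕ :=
  Sym2.lift ⟨fun a b => if (a ∈ U ↔ b ∈ U) then 0 else 1, fun a b => by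
    simp only [iff_comm]⟩

@[simp] lemma crE_mk (U : Finset V) (a b : V) :
    crE U s(a, b) = if (a ∈ U ↔ b ∈ U) then 0 else 1 := rfl

/-- number of edges leaving `U` -/
def cr (M : Multiset (Sym2 V)) (U : Finset V) : ℕ := (M.map (crE U)).sum

@[simp] lemma cr_zero (U : Finset V) : cr (0 : Multiset (Sym2 V)) U = 0 := by simp [cr]

@[simp] lemma cr_cons (e : Sym2 V) (M : Multiset (Sym2 V)) (U : Finset V) :
    cr (e ::ₘ M) U = crE U e + cr M U := by simp [cr]

@[simp] lemma cr_add (M N : Multiset (Sym2 V)) (U : Finset V) :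
    cr (M + N) U = cr M U + cr N U := by simp [cr]

lemma exists_mem_of_dg {M : Multiset (Sym2 V)} {x : V} (h : 1 ≤ dg M x) :
    ∃ a R, M = s(x, a) ::ₘ R := by
  induction M using Multiset.induction_on with
  | empty => simp at h
  | cons e M ih =>
    rw [dg_cons] at h
    by_cases he : 1 ≤ dgE x e
    · induction e using Sym2.ind with
      | _ a b =>
        rw [dgE_mk] at he
        by_cases hax : a = x
        · subst hax; exact ⟨b, M, rfl⟩
        · by_cases hbx : b = x
          · subst hbx; exact ⟨a, M, by rw [Sym2.eq_swap]⟩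
          · simp [hax, hbx] at he
    · obtain ⟨a, R, hR⟩ := ih (by omega)
      exact ⟨a, e ::ₘ R, by rw [hR, Multiset.cons_swap]⟩

lemma exists_mem_of_cr {M : Multiset (Sym2 V)} {U : Finset V} (h : 1 ≤ cr M U) :
    ∃ a b R, a ∈ U ∧ b ∉ U ∧ M = s(a, b) ::ₘ R := by
  induction M using Multiset.induction_on with
  | empty => simp at h
  | cons e M ih =>
    rw [cr_cons] at h
    by_cases he : 1 ≤ crE U e
    · induction e using Sym2.ind with
      | _ a b =>
        rw [crE_mk] at he
        by_cases hax : a ∈ U
        · by_cases hbx : b ∈ U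
          · simp [hax, hbx] at he
          · exact ⟨a, b, M, hax, hbx, rfl⟩
        · by_cases hbx : b ∈ U
          · exact ⟨b, a, M, hbx, hax, by rw [Sym2.eq_swap]⟩
          · simp [hax, hbx] at he
    · obtain ⟨a, b, R, h1, h2, hR⟩ := ih (by omega)
      exact ⟨a, b, e ::ₘ R, h1, h2, by rw [hR, Multiset.cons_swap]⟩

lemma dg_eq_zero_iff {M : Multiset (Sym2 V)} {x : V} : dg M x = 0 ↔ Fr x M := by
  induction M using Multiset.induction_on with
  | empty => simp [Fr_zero]
  | cons e M ih =>
    induction e using Sym2.ind with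
    | _ a b =>
      rw [Fr_cons, dg_cons, dgE_mk, ← ih]
      constructor
      · intro h
        refine ⟨?_, ?_, ?_⟩
        · rintro rfl; simp at h
        · rintro rfl; simp at h
        · omega
      · rintro ⟨h1, h2, h3⟩
        simp [h1.symm, h2.symm, h3]

lemma cr_eq_zero {M : Multiset (Sym2 V)} {U : Finset V} (h : ∀ e ∈ M, crE U e = 0) :
    cr M U = 0 := by
  induction M using Multiset.induction_on with
  | empty => simp
  | cons e M ih =>
    rw [cr_cons, h e (Multiset.mem_cons_self _ _), ih (fun e he => h e (Multiset.mem_cons_of_mem he))]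

lemma cr_congr {M : Multiset (Sym2 V)} {U U' : Finset V}
    (h : ∀ e ∈ M, ∀ v ∈ e, (v ∈ U ↔ v ∈ U')) : cr M U = cr M U' := by
  induction M using Multiset.induction_on with
  | empty => simp
  | cons e M ih =>
    rw [cr_cons, cr_cons, ih (fun e he => h e (Multiset.mem_cons_of_mem he))]
    congr 1
    induction e using Sym2.ind with
    | _ a b =>
      have h1 := h s(a, b) (Multiset.mem_cons_self _ _)
      have h2 := h1 a (by simp)
      have h3 := h1 b (by simp)
      simp only [crE_mk, h2, h3]

lemma cr_insert_fresh {M : Multiset (Sym2 V)} {x : V} (hx : Fr x M) (U : Finset V) :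
    cr M (insert x U) = cr M U := by
  apply cr_congr
  intro e he v hv
  rw [Finset.mem_insert]
  constructor
  · rintro (rfl | h)
    · exact absurd hv (hx e he)
    · exact h
  · exact Or.inr

/-- cuts of a single vertex are bounded by its degree -/
lemma cr_singleton_le (M : Multiset (Sym2 V)) (p : V) : cr M {p} ≤ dg M p := by
  induction M using Multiset.induction_on with
  | empty => simp
  | cons e M ih =>
    rw [cr_cons, dg_cons]
    apply Nat.add_le_add _ ih
    induction e using Sym2.ind with
    | _ a b =>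
      rw [crE_mk, dgE_mk]
      simp only [Finset.mem_singleton]
      by_cases h1 : a = p <;> by_cases h2 : b = p <;> simp [h1, h2]

/-- handshake lemma -/
lemma handshake {M : Multiset (Sym2 V)} {T : Finset V} (h : ∀ e ∈ M, ∀ v ∈ e, v ∈ T) :
    ∑ v ∈ T, dg M v = 2 * Multiset.card M := by
  induction M using Multiset.induction_on with
  | empty => simp
  | cons e M ih =>
    simp only [dg_cons, Multiset.card_cons]
    rw [Finset.sum_add_distrib, ih (fun e he => h e (Multiset.mem_cons_of_mem he))]
    have : ∑ v ∈ T, dgE v e = 2 := by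
      induction e using Sym2.ind with
      | _ a b =>
        have h1 := h s(a, b) (Multiset.mem_cons_self _ _)
        simp only [dgE_mk]
        rw [Finset.sum_add_distrib, Finset.sum_ite_eq, Finset.sum_ite_eq,
          if_pos (h1 a (by simp)), if_pos (h1 b (by simp))]
    rw [this]; ring

/-- a vertex outside the support -/
lemma Fr_of_sub {M : Multiset (Sym2 V)} {T : Finset V} (h : ∀ e ∈ M, ∀ v ∈ e, v ∈ T) {x : V}
    (hx : x ∉ T) : Fr x M := fun e he hxe => hx (h e he x hxe)

lemma rk_eq_card : ∀ (n : ℕ) (S : Finset V) (w : V) (M : Multiset (Sym2 V)), S.card = n →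
    w ∉ S → (∀ e ∈ M, ∀ v ∈ e, v ∈ S ∨ v = w) → (∀ U ⊆ S, U.Nonempty → 1 ≤ cr M U) →
    rk M = n := by
  intro n
  induction n with
  | zero =>
    intro S w M hS _ hsub _
    have hS0 : S = ∅ := Finset.card_eq_zero.mp hS
    subst hS0
    have h : sp M = ⊥ := by
      unfold sp
      rw [Submodule.span_eq_bot]
      rintro x ⟨e, he, rfl⟩
      induction e using Sym2.ind with
      | _ a b =>
        have ha := hsub s(a, b) he a (by simp)
        have hb := hsub s(a, b) he b (by simp)
        simp only [Finset.notMem_empty, false_or] at ha hb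
        subst ha; subst hb
        rw [vec_mk, ← Finsupp.single_add]
        have : (1 : ZMod 2) + 1 = 0 := by decide
        simp [this]
    unfold rk
    rw [h, finrank_bot]
  | succ n ih =>
    intro S w M hS hw hsub hcut
    have hne : S.Nonempty := by
      rw [← Finset.card_pos]; omega
    obtain ⟨x, b, R, hx, hb, rfl⟩ := exists_mem_of_cr (hcut S (Finset.Subset.refl _) hne)
    have hbw : b = w := by
      rcases hsub s(x, b) (Multiset.mem_cons_self _ _) b (by simp) with h | h
      · exact absurd h hb
      · exact h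
    subst hbw
    have hxb : b ≠ x := fun h => hb (h ▸ hx)
    rw [Sym2.eq_swap, rk_con hxb]
    rw [ih (S.erase x) b (con b x R) (by rw [Finset.card_erase_of_mem hx]; omega)
      (by simp [hw])]
    · intro e he v hv
      obtain ⟨e', he', rfl⟩ := Multiset.mem_map.mp he
      obtain ⟨v', hv', rfl⟩ := Sym2.mem_map.mp hv
      by_cases hvx : v' = x
      · right; simp [sub, hvx]
      · rw [sub_of_ne hvx, Finset.mem_erase]
        rcases hsub e' (Multiset.mem_cons_of_mem he') v' hv' with h | h
        · left; exact ⟨hvx, h⟩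
        · right; exact h
    · intro U hU hUne
      have hxU : x ∉ U := fun h => by simpa using hU h
      have hbU : b ∉ U := fun h => hw (Finset.mem_of_mem_erase (hU h))
      have h1 := hcut U (hU.trans (Finset.erase_subset _ _)) hUne
      rw [cr_cons, crE_mk] at h1
      simp only [hxU, hbU, iff_self, if_true, zero_add] at h1
      have h2 : cr (con b x R) U = cr R U := by
        clear h1 hcut hsub ih
        induction R using Multiset.induction_on with
        | empty => simp
        | cons e M ih =>
          rw [con_cons, cr_cons, cr_cons, ih]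
          congr 1
          induction e using Sym2.ind with
          | _ c d =>
            have hh : ∀ v, sub b x v ∈ U ↔ v ∈ U := by
              intro v
              by_cases hvx : v = x
              · subst hvx; simp [sub, hxU, hbU]
              · rw [sub_of_ne hvx]
            simp only [Sym2.map_mk, crE_mk, hh]
      rw [h2]
      exact h1

/-- a state of the induction: `w` is the special vertex, `S` the set of the other vertices, all of
degree `3`; there are no loops, no parallel edges inside `S`, and every non-empty set of vertices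
avoiding `w` is left by at least two edges -/
structure St (S : Finset V) (w : V) (M : Multiset (Sym2 V)) : Prop where
  hw : w ∉ S
  sub : ∀ e ∈ M, ∀ v ∈ e, v ∈ S ∨ v = w
  deg : ∀ x ∈ S, dg M x = 3
  cut : ∀ U ⊆ S, U.Nonempty → 2 ≤ cr M U
  noloop : ∀ a, s(a, a) ∉ M
  simp : ∀ a ∈ S, ∀ b ∈ S, M.count s(a, b) ≤ 1

namespace St

variable {S : Finset V} {w : V} {M : Multiset (Sym2 V)}

lemma parity (h : St S w M) : ∃ m, S.card + dg M w = 2 * m := by
  have h1 := handshake (M := M) (T := insert w S) (by
    intro e he v hv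
    rw [Finset.mem_insert]
    exact (h.sub e he v hv).symm)
  rw [Finset.sum_insert h.hw, Finset.sum_congr rfl h.deg] at h1
  simp only [Finset.sum_const, smul_eq_mul] at h1
  refine ⟨Multiset.card M - S.card, ?_⟩
  omega

lemma decomp (h : St S w M) {x : V} (hx : x ∈ S) :
    ∃ a b c R, M = s(x, a) ::ₘ s(x, b) ::ₘ s(x, c) ::ₘ R ∧ Fr x R ∧ x ≠ a ∧ x ≠ b ∧ x ≠ c := by
  have h0 := h.deg x hx
  obtain ⟨a, R1, rfl⟩ := exists_mem_of_dg (M := M) (x := x) (by omega)
  have hxa : x ≠ a := by
    rintro rfl
    exact h.noloop x (Multiset.mem_cons_self _ _)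
  simp only [dg_cons, dgE_mk, if_true, if_neg hxa.symm] at h0
  obtain ⟨b, R2, rfl⟩ := exists_mem_of_dg (M := R1) (x := x) (by omega)
  have hxb : x ≠ b := by
    rintro rfl
    exact h.noloop x (Multiset.mem_cons_of_mem (Multiset.mem_cons_self _ _))
  simp only [dg_cons, dgE_mk, if_true, if_neg hxb.symm] at h0
  obtain ⟨c, R3, rfl⟩ := exists_mem_of_dg (M := R2) (x := x) (by omega)
  have hxc : x ≠ c := by
    rintro rfl
    exact h.noloop x (Multiset.mem_cons_of_mem (Multiset.mem_cons_of_mem
      (Multiset.mem_cons_self _ _)))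
  simp only [dg_cons, dgE_mk, if_true, if_neg hxc.symm] at h0
  exact ⟨a, b, c, R3, rfl, dg_eq_zero_iff.mp (by omega), hxa, hxb, hxc⟩

/-- decomposition at a given edge -/
lemma decomp' (h : St S w M) {x y : V} (hx : x ∈ S) (hxy : s(x, y) ∈ M) :
    ∃ b c R, M = s(x, y) ::ₘ s(x, b) ::ₘ s(x, c) ::ₘ R ∧ Fr x R ∧ x ≠ y ∧ x ≠ b ∧ x ≠ c := by
  have h0 := h.deg x hx
  obtain ⟨R1, rfl⟩ := Multiset.exists_cons_of_mem hxy
  have hxa : x ≠ y := by
    rintro rfl
    exact h.noloop x (Multiset.mem_cons_self _ _)
  simp only [dg_cons, dgE_mk, if_true, if_neg hxa.symm] at h0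
  obtain ⟨b, R2, rfl⟩ := exists_mem_of_dg (M := R1) (x := x) (by omega)
  have hxb : x ≠ b := by
    rintro rfl
    exact h.noloop x (Multiset.mem_cons_of_mem (Multiset.mem_cons_self _ _))
  simp only [dg_cons, dgE_mk, if_true, if_neg hxb.symm] at h0
  obtain ⟨c, R3, rfl⟩ := exists_mem_of_dg (M := R2) (x := x) (by omega)
  have hxc : x ≠ c := by
    rintro rfl
    exact h.noloop x (Multiset.mem_cons_of_mem (Multiset.mem_cons_of_mem
      (Multiset.mem_cons_self _ _)))
  simp only [dg_cons, dgE_mk, if_true, if_neg hxc.symm] at h0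
  exact ⟨b, c, R3, rfl, dg_eq_zero_iff.mp (by omega), hxa, hxb, hxc⟩

lemma exists_nbr (h : St S w M) (hS : S.Nonempty) : ∃ x ∈ S, s(x, w) ∈ M := by
  have h1 := h.cut S (Finset.Subset.refl _) hS
  obtain ⟨x, b, R, hx, hb, rfl⟩ := exists_mem_of_cr (M := M) (U := S) (by omega)
  have hbw : b = w := by
    rcases h.sub s(x, b) (Multiset.mem_cons_self _ _) b (by simp) with h | h
    · exact absurd h hb
    · exact h
  subst hbw
  exact ⟨x, hx, Multiset.mem_cons_self _ _⟩

end St

end Pool.Agent.FlowCubic
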