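import Pool.Agent.Lib_MP_76bad1_co.State

/-!
# Transitions between states
-/

open Polynomial

namespace Pool.Agent.FlowCubic

set_option linter.unusedSectionVars false

variable {V : Type*} [DecidableEq V]

lemma Fr_mono {x : V} {R M : Multiset (Sym2 V)} (h : Fr x M) (hRM : R ≤ M) : Fr x R :=
  fun e he => h e (Multiset.mem_of_le hRM he)

lemma count_fresh {x : V} {R : Multiset (Sym2 V)} (h : Fr x R) {e : Sym2 V} (he : x ∈ e) :
    R.count e = 0 := by
  rw [Multiset.count_eq_zero]
  intro h1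
  exact h e h1 he

lemma ne_of_notMem_sym2 {w a b c : V} (ha : a ≠ w) (hb : b ≠ w) : s(a, b) ≠ s(w, c) := by
  intro h
  have : w ∈ s(a, b) := by rw [h]; simp
  rw [Sym2.mem_iff] at this
  rcases this with h | h
  · exact ha h.symm
  · exact hb h.symm

lemma le_cons3 (a b c : Sym2 V) (R : Multiset (Sym2 V)) : R ≤ a ::ₘ b ::ₘ c ::ₘ R :=
  ((Multiset.le_cons_self R c).trans (Multiset.le_cons_self _ b)).trans (Multiset.le_cons_self _ a)

lemma le_cons2 (a b : Sym2 V) (R : Multiset (Sym2 V)) : R ≤ a ::ₘ b ::ₘ R :=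
  (Multiset.le_cons_self R b).trans (Multiset.le_cons_self _ a)

namespace St

variable {S : Finset V} {w : V} {M : Multiset (Sym2 V)}

lemma sub_fresh (h : St S w M) {x : V} {R : Multiset (Sym2 V)} (hRM : R ≤ M) (hR : Fr x R) :
    ∀ e ∈ R, ∀ v ∈ e, v ∈ S.erase x ∨ v = w := by
  intro e he v hv
  rcases h.sub e (Multiset.mem_of_le hRM he) v hv with h1 | h1
  · left
    rw [Finset.mem_erase]
    refine ⟨?_, h1⟩
    rintro rfl
    exact hR e he hv
  · right; exact h1

lemma ne_w (h : St S w M) {x : V} (hx : x ∈ S) : x ≠ w := fun h1 => h.hw (h1 ▸ hx)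

lemma count_le (h : St S w M) {R : Multiset (Sym2 V)} (hRM : R ≤ M) {a b : V} (ha : a ∈ S)
    (hb : b ∈ S) : R.count s(a, b) ≤ 1 :=
  (Multiset.count_le_of_le _ hRM).trans (h.simp a ha b hb)

lemma r3 {x : V} {R : Multiset (Sym2 V)}
    (h : St S w (s(x, w) ::ₘ s(x, w) ::ₘ s(x, w) ::ₘ R)) (hx : x ∈ S) (hR : Fr x R) :
    St (S.erase x) w R where
  hw := by simp [h.hw]
  sub := h.sub_fresh (le_cons3 _ _ _ _) hR
  deg := by
    intro y hy
    rw [Finset.mem_erase] at hy
    have h1 := h.deg y hy.2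
    have h2 : w ≠ y := (h.ne_w hy.2).symm
    simpa [hy.1.symm, h2] using h1
  cut := by
    intro U hU hne
    have hxU : x ∉ U := fun h => by simpa using hU h
    have hwU : w ∉ U := fun h' => h.hw (Finset.mem_of_mem_erase (hU h'))
    have h1 := h.cut U (hU.trans (Finset.erase_subset _ _)) hne
    simpa [hxU, hwU] using h1
  noloop := fun a ha => h.noloop a (Multiset.mem_of_le (le_cons3 _ _ _ _) ha)
  simp := fun a ha b hb => h.count_le (le_cons3 _ _ _ _) (Finset.mem_of_mem_erase ha)
    (Finset.mem_of_mem_erase hb)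

lemma r2 {x b : V} {R : Multiset (Sym2 V)}
    (h : St S w (s(x, w) ::ₘ s(x, w) ::ₘ s(x, b) ::ₘ R)) (hx : x ∈ S) (hbw : b ≠ w)
    (hxb : x ≠ b) (hR : Fr x R) :
    St (S.erase x) w (s(w, b) ::ₘ R) where
  hw := by simp [h.hw]
  sub := by
    intro e he v hv
    rcases Multiset.mem_cons.mp he with rfl | he
    · rcases Sym2.mem_iff.mp hv with rfl | rfl
      · right; rfl
      · left
        rw [Finset.mem_erase]
        refine ⟨hxb.symm, ?_⟩
        rcases h.sub s(x, v) (by simp) v (by simp) with h1 | h1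
        · exact h1
        · exact absurd h1 hbw
    · exact h.sub_fresh (le_cons3 _ _ _ _) hR e he v hv
  deg := by
    intro y hy
    rw [Finset.mem_erase] at hy
    have h1 := h.deg y hy.2
    have h2 : w ≠ y := (h.ne_w hy.2).symm
    simpa [hy.1.symm, h2] using h1
  cut := by
    intro U hU hne
    have hxU : x ∉ U := fun h => by simpa using hU h
    have hwU : w ∉ U := fun h' => h.hw (Finset.mem_of_mem_erase (hU h'))
    have h1 := h.cut U (hU.trans (Finset.erase_subset _ _)) hne
    simpa [hxU, hwU] using h1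
  noloop := by
    intro a ha
    rcases Multiset.mem_cons.mp ha with h1 | h1
    · have h2 : w ∈ s(a, a) := by rw [h1]; simp
      have h3 : b ∈ s(a, a) := by rw [h1]; simp
      simp only [Sym2.mem_iff, or_self] at h2 h3
      exact hbw (h3.trans h2.symm)
    · exact h.noloop a (Multiset.mem_of_le (le_cons3 _ _ _ _) h1)
  simp := by
    intro a ha b' hb'
    have ha' := Finset.mem_of_mem_erase ha
    have hb'' := Finset.mem_of_mem_erase hb'
    rw [Multiset.count_cons_of_ne (ne_of_notMem_sym2 (h.ne_w ha') (h.ne_w hb''))]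
    exact h.count_le (le_cons3 _ _ _ _) ha' hb''

lemma con {x b c : V} {R : Multiset (Sym2 V)}
    (h : St S w (s(x, w) ::ₘ s(x, b) ::ₘ s(x, c) ::ₘ R)) (hx : x ∈ S) (hbw : b ≠ w)
    (hcw : c ≠ w) (hxb : x ≠ b) (hxc : x ≠ c) (hR : Fr x R) :
    St (S.erase x) w (s(w, b) ::ₘ s(w, c) ::ₘ R) where
  hw := by simp [h.hw]
  sub := by
    intro e he v hv
    rcases Multiset.mem_cons.mp he with rfl | he
    · rcases Sym2.mem_iff.mp hv with rfl | rfl
      · right; rfl
      · left
        rw [Finset.mem_erase]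
        refine ⟨hxb.symm, ?_⟩
        rcases h.sub s(x, v) (by simp) v (by simp) with h1 | h1
        · exact h1
        · exact absurd h1 hbw
    · rcases Multiset.mem_cons.mp he with rfl | he
      · rcases Sym2.mem_iff.mp hv with rfl | rfl
        · right; rfl
        · left
          rw [Finset.mem_erase]
          refine ⟨hxc.symm, ?_⟩
          rcases h.sub s(x, v) (by simp) v (by simp) with h1 | h1
          · exact h1
          · exact absurd h1 hcw
      · exact h.sub_fresh (le_cons3 _ _ _ _) hR e he v hv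
  deg := by
    intro y hy
    rw [Finset.mem_erase] at hy
    have h1 := h.deg y hy.2
    have h2 : w ≠ y := (h.ne_w hy.2).symm
    simpa [hy.1.symm, h2] using h1
  cut := by
    intro U hU hne
    have hxU : x ∉ U := fun h => by simpa using hU h
    have hwU : w ∉ U := fun h' => h.hw (Finset.mem_of_mem_erase (hU h'))
    have h1 := h.cut U (hU.trans (Finset.erase_subset _ _)) hne
    simpa [hxU, hwU] using h1
  noloop := by
    intro a ha
    rcases Multiset.mem_cons.mp ha with h1 | h1
    · have h2 : w ∈ s(a, a) := by rw [h1]; simp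
      have h3 : b ∈ s(a, a) := by rw [h1]; simp
      simp only [Sym2.mem_iff, or_self] at h2 h3
      exact hbw (h3.trans h2.symm)
    · rcases Multiset.mem_cons.mp h1 with h1 | h1
      · have h2 : w ∈ s(a, a) := by rw [h1]; simp
        have h3 : c ∈ s(a, a) := by rw [h1]; simp
        simp only [Sym2.mem_iff, or_self] at h2 h3
        exact hcw (h3.trans h2.symm)
      · exact h.noloop a (Multiset.mem_of_le (le_cons3 _ _ _ _) h1)
  simp := by
    intro a ha b' hb'
    have ha' := Finset.mem_of_mem_erase ha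
    have hb'' := Finset.mem_of_mem_erase hb'
    rw [Multiset.count_cons_of_ne (ne_of_notMem_sym2 (h.ne_w ha') (h.ne_w hb'')),
      Multiset.count_cons_of_ne (ne_of_notMem_sym2 (h.ne_w ha') (h.ne_w hb''))]
    exact h.count_le (le_cons3 _ _ _ _) ha' hb''

lemma del {x b c : V} {R : Multiset (Sym2 V)}
    (h : St S w (s(x, w) ::ₘ s(x, b) ::ₘ s(x, c) ::ₘ R)) (hx : x ∈ S) (hbw : b ≠ w)
    (hcw : c ≠ w) (hxb : x ≠ b) (hxc : x ≠ c) (hR : Fr x R) (hbc : b ≠ c)
    (hbcR : s(b, c) ∉ R)
    (ht : ∀ U ⊆ S, x ∈ U → 3 ≤ cr (s(x, w) ::ₘ s(x, b) ::ₘ s(x, c) ::ₘ R) U) :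
    St (S.erase x) w (s(b, c) ::ₘ R) where
  hw := by simp [h.hw]
  sub := by
    intro e he v hv
    rcases Multiset.mem_cons.mp he with rfl | he
    · left
      rcases Sym2.mem_iff.mp hv with rfl | rfl
      · rw [Finset.mem_erase]
        refine ⟨hxb.symm, ?_⟩
        rcases h.sub s(x, v) (by simp) v (by simp) with h1 | h1
        · exact h1
        · exact absurd h1 hbw
      · rw [Finset.mem_erase]
        refine ⟨hxc.symm, ?_⟩
        rcases h.sub s(x, v) (by simp) v (by simp) with h1 | h1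
        · exact h1
        · exact absurd h1 hcw
    · exact h.sub_fresh (le_cons3 _ _ _ _) hR e he v hv
  deg := by
    intro y hy
    rw [Finset.mem_erase] at hy
    have h1 := h.deg y hy.2
    have h2 : w ≠ y := (h.ne_w hy.2).symm
    simp only [dg_cons, dgE_mk, hy.1.symm, h2, if_false] at h1 ⊢
    omega
  cut := by
    intro U hU hne
    have hxU : x ∉ U := fun h => by simpa using hU h
    have hwU : w ∉ U := fun h' => h.hw (Finset.mem_of_mem_erase (hU h'))
    have h1 := h.cut U (hU.trans (Finset.erase_subset _ _)) hne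
    by_cases hb : b ∈ U
    · by_cases hc : c ∈ U
      · have h2 := ht (insert x U) (by
          intro v hv
          rcases Finset.mem_insert.mp hv with rfl | hv
          · exact hx
          · exact Finset.mem_of_mem_erase (hU hv)) (Finset.mem_insert_self _ _)
        have h3 := cr_insert_fresh hR U
        have hwx : w ≠ x := (h.ne_w hx).symm
        simp [hwU, hb, hc, h3, hwx] at h2
        simp [hb, hc]
        omega
      · simpa [hxU, hwU, hb, hc] using h1
    · by_cases hc : c ∈ U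
      · simpa [hxU, hwU, hb, hc] using h1
      · simpa [hxU, hwU, hb, hc] using h1
  noloop := by
    intro a ha
    rcases Multiset.mem_cons.mp ha with h1 | h1
    · have h2 : b ∈ s(a, a) := by rw [h1]; simp
      have h3 : c ∈ s(a, a) := by rw [h1]; simp
      simp only [Sym2.mem_iff, or_self] at h2 h3
      exact hbc (h2.trans h3.symm)
    · exact h.noloop a (Multiset.mem_of_le (le_cons3 _ _ _ _) h1)
  simp := by
    intro a ha b' hb'
    have ha' := Finset.mem_of_mem_erase ha
    have hb'' := Finset.mem_of_mem_erase hb'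
    by_cases he : s(a, b') = s(b, c)
    · rw [he, Multiset.count_cons_self, Multiset.count_eq_zero.mpr hbcR]
    · rw [Multiset.count_cons_of_ne he]
      exact h.count_le (le_cons3 _ _ _ _) ha' hb''

lemma tri {x y z p q : V} {R : Multiset (Sym2 V)}
    (h : St S w (s(x, w) ::ₘ s(y, p) ::ₘ s(z, q) ::ₘ s(x, y) ::ₘ s(x, z) ::ₘ s(y, z) ::ₘ R))
    (hx : x ∈ S) (hy : y ∈ S) (hz : z ∈ S) (hxy : x ≠ y) (hxz : x ≠ z) (_hyz : y ≠ z)
    (hxp : x ≠ p) (hyp : y ≠ p) (hzp : z ≠ p) (hxq : x ≠ q) (hyq : y ≠ q) (hzq : z ≠ q)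
    (hpq : p = q → p = w)
    (hxR : Fr x R) (hyR : Fr y R) (hzR : Fr z R) :
    St ((S.erase y).erase z) w (s(x, w) ::ₘ s(x, p) ::ₘ s(x, q) ::ₘ R) := by
  have hRM : R ≤ (s(x, w) ::ₘ s(y, p) ::ₘ s(z, q) ::ₘ s(x, y) ::ₘ s(x, z) ::ₘ s(y, z) ::ₘ R) :=
    (le_cons3 _ _ _ _).trans (le_cons3 _ _ _ _)
  have hS' : ∀ v, v ∈ (S.erase y).erase z ↔ (v ≠ z ∧ v ≠ y ∧ v ∈ S) := by
    intro v; rw [Finset.mem_erase, Finset.mem_erase]
  have hxw := h.ne_w hx
  have hyw := h.ne_w hy
  have hzw := h.ne_w hz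
  have hpS : p ∈ S ∨ p = w := h.sub s(y, p) (by simp) p (by simp)
  have hqS : q ∈ S ∨ q = w := h.sub s(z, q) (by simp) q (by simp)
  refine ⟨?_, ?_, ?_, ?_, ?_, ?_⟩
  · rw [hS']; intro h1; exact h.hw h1.2.2
  · intro e he v hv
    rcases Multiset.mem_cons.mp he with rfl | he
    · rcases Sym2.mem_iff.mp hv with rfl | rfl
      · left; rw [hS']; exact ⟨hxz, hxy, hx⟩
      · right; rfl
    rcases Multiset.mem_cons.mp he with rfl | he
    · rcases Sym2.mem_iff.mp hv with rfl | rfl
      · left; rw [hS']; exact ⟨hxz, hxy, hx⟩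
      · rcases hpS with h1 | h1
        · left; rw [hS']; exact ⟨hzp.symm, hyp.symm, h1⟩
        · right; exact h1
    rcases Multiset.mem_cons.mp he with rfl | he
    · rcases Sym2.mem_iff.mp hv with rfl | rfl
      · left; rw [hS']; exact ⟨hxz, hxy, hx⟩
      · rcases hqS with h1 | h1
        · left; rw [hS']; exact ⟨hzq.symm, hyq.symm, h1⟩
        · right; exact h1
    · rcases h.sub e (Multiset.mem_of_le hRM he) v hv with h1 | h1
      · left
        rw [hS']
        refine ⟨?_, ?_, h1⟩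
        · rintro rfl; exact hzR e he hv
        · rintro rfl; exact hyR e he hv
      · right; exact h1
  · intro v hv
    rw [hS'] at hv
    have h1 := h.deg v hv.2.2
    have h2 : w ≠ v := (h.ne_w hv.2.2).symm
    simp only [dg_cons, dgE_mk, hv.1.symm, hv.2.1.symm, h2, if_false] at h1 ⊢
    omega
  · intro U hU hne
    have hyU : y ∉ U := fun h' => ((hS' y).mp (hU h')).2.1 rfl
    have hzU : z ∉ U := fun h' => ((hS' z).mp (hU h')).1 rfl
    have hwU : w ∉ U := fun h' => h.hw ((hS' w).mp (hU h')).2.2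
    have hUS : U ⊆ S := fun v hv => ((hS' v).mp (hU hv)).2.2
    by_cases hxU : x ∈ U
    · have h1 := h.cut (insert y (insert z U)) (by
        intro v hv
        rcases Finset.mem_insert.mp hv with rfl | hv
        · exact hy
        rcases Finset.mem_insert.mp hv with rfl | hv
        · exact hz
        · exact hUS hv) (Finset.insert_nonempty _ _)
      have h2 : cr R (insert y (insert z U)) = cr R U := by
        rw [cr_insert_fresh hyR, cr_insert_fresh hzR]
      simp only [cr_cons, crE_mk, Finset.mem_insert, h2, hxU, hwU, hyw.symm, hzw.symm,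
        hyp.symm, hzp.symm, hyq.symm, hzq.symm, true_or, or_true, or_false,
        false_or, iff_false, iff_true, not_true_eq_false, if_false, if_true, true_iff] at h1 ⊢
      omega
    · have h1 := h.cut U hUS hne
      simpa [hxU, hyU, hzU, hwU] using h1
  · intro a ha
    rcases Multiset.mem_cons.mp ha with h1 | ha
    · have h2 : x ∈ s(a, a) := by rw [h1]; simp
      have h3 : w ∈ s(a, a) := by rw [h1]; simp
      simp only [Sym2.mem_iff, or_self] at h2 h3
      exact hxw (h2.trans h3.symm)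
    rcases Multiset.mem_cons.mp ha with h1 | ha
    · have h2 : x ∈ s(a, a) := by rw [h1]; simp
      have h3 : p ∈ s(a, a) := by rw [h1]; simp
      simp only [Sym2.mem_iff, or_self] at h2 h3
      exact hxp (h2.trans h3.symm)
    rcases Multiset.mem_cons.mp ha with h1 | ha
    · have h2 : x ∈ s(a, a) := by rw [h1]; simp
      have h3 : q ∈ s(a, a) := by rw [h1]; simp
      simp only [Sym2.mem_iff, or_self] at h2 h3
      exact hxq (h2.trans h3.symm)
    · exact h.noloop a (Multiset.mem_of_le hRM ha)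
  · intro a ha b hb
    rw [hS'] at ha hb
    have hn : s(a, b) ≠ s(x, w) := by
      rw [Sym2.eq_swap (a := x)]
      exact ne_of_notMem_sym2 (h.ne_w ha.2.2) (h.ne_w hb.2.2)
    rw [Multiset.count_cons_of_ne hn]
    by_cases hp : s(a, b) = s(x, p)
    · have hq : s(a, b) ≠ s(x, q) := by
        intro hq
        have : p = q := by
          have := hp.symm.trans hq
          rwa [Sym2.congr_right] at this
        have hpw := hpq this
        subst hpw
        exact hn hp
      have hR0 : R.count s(a, b) = 0 := count_fresh hxR (by rw [hp]; simp)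
      rw [hp, Multiset.count_cons_self, ← hp, Multiset.count_cons_of_ne hq, hR0]
    · rw [Multiset.count_cons_of_ne hp]
      by_cases hq : s(a, b) = s(x, q)
      · have hR0 : R.count s(a, b) = 0 := count_fresh hxR (by rw [hq]; simp)
        rw [hq, Multiset.count_cons_self, ← hq, hR0]
      · rw [Multiset.count_cons_of_ne hq]
        exact h.count_le hRM ha.2.2 hb.2.2

lemma tight_decomp (h : St S w M) {U : Finset V} (hU : U ⊆ S) {x : V} (hxU : x ∈ U)
    (hxw : s(x, w) ∈ M) (hc : cr M U = 2) :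
    ∃ u z M1 N, M = s(x, w) ::ₘ s(u, z) ::ₘ (M1 + N) ∧ u ∈ U ∧ z ∉ U ∧
      (∀ e ∈ M1, ∀ v ∈ e, v ∈ U) ∧ (∀ e ∈ N, ∀ v ∈ e, v ∉ U) := by
  classical
  obtain ⟨R0, rfl⟩ := Multiset.exists_cons_of_mem hxw
  have hwU : w ∉ U := fun h' => h.hw (hU h')
  have h1 : cr R0 U = 1 := by
    simp [hxU, hwU] at hc
    omega
  obtain ⟨u, z, R1, hu, hz, rfl⟩ := exists_mem_of_cr (M := R0) (U := U) (by omega)
  have h2 : cr R1 U = 0 := by
    simp [hu, hz] at h1
    omega
  have h3 : ∀ e ∈ R1, crE U e = 0 := by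
    intro e he
    have h4 : ∀ k ∈ R1.map (crE U), k = 0 := by
      have : (R1.map (crE U)).sum = 0 := h2
      rwa [Multiset.sum_eq_zero_iff] at this
    exact h4 _ (Multiset.mem_map_of_mem _ he)
  refine ⟨u, z, R1.filter (fun e => ∀ v ∈ e, v ∈ U), R1.filter (fun e => ¬ ∀ v ∈ e, v ∈ U), ?_,
    hu, hz, ?_, ?_⟩
  · rw [Multiset.filter_add_not]
  · intro e he
    exact (Multiset.mem_filter.mp he).2
  · intro e he v hv hvU
    obtain ⟨he1, he2⟩ := Multiset.mem_filter.mp he
    apply he2
    have h4 := h3 e he1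
    induction e using Sym2.ind with
    | _ a b =>
      rw [crE_mk] at h4
      have h5 : a ∈ U ↔ b ∈ U := by
        by_contra h6
        simp [h6] at h4
      intro v' hv'
      rcases Sym2.mem_iff.mp hv with rfl | rfl <;> rcases Sym2.mem_iff.mp hv' with rfl | rfl
      · exact hvU
      · exact h5.mp hvU
      · exact h5.mpr hvU
      · exact hvU

lemma inside {x u z : V} {U : Finset V} {M1 N : Multiset (Sym2 V)}
    (h : St S w (s(x, w) ::ₘ s(u, z) ::ₘ (M1 + N))) (hU : U ⊆ S) (hx : x ∈ U) (hu : u ∈ U)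
    (hz : z ∉ U) (h1 : ∀ e ∈ M1, ∀ v ∈ e, v ∈ U) (h2 : ∀ e ∈ N, ∀ v ∈ e, v ∉ U) :
    St U w (s(x, w) ::ₘ s(u, w) ::ₘ M1) := by
  have hwU : w ∉ U := fun h' => h.hw (hU h')
  have hM1 : M1 ≤ s(x, w) ::ₘ s(u, z) ::ₘ (M1 + N) :=
    (Multiset.le_add_right M1 N).trans (le_cons2 _ _ _)
  refine ⟨hwU, ?_, ?_, ?_, ?_, ?_⟩
  · intro e he v hv
    rcases Multiset.mem_cons.mp he with rfl | he
    · rcases Sym2.mem_iff.mp hv with rfl | rfl
      · left; exact hx
      · right; rfl
    rcases Multiset.mem_cons.mp he with rfl | he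
    · rcases Sym2.mem_iff.mp hv with rfl | rfl
      · left; exact hu
      · right; rfl
    · left; exact h1 e he v hv
  · intro v hv
    have h3 := h.deg v (hU hv)
    have h4 : w ≠ v := (h.ne_w (hU hv)).symm
    have h5 : z ≠ v := fun h' => hz (h' ▸ hv)
    have h6 : dg N v = 0 := dg_eq_zero_iff.mpr (fun e he hve => h2 e he v hve hv)
    simp only [dg_cons, dgE_mk, dg_add, h4, h5, h6, if_false] at h3 ⊢
    omega
  · intro U' hU' hne
    have h3 := h.cut U' (hU'.trans hU) hne
    have hwU' : w ∉ U' := fun h' => hwU (hU' h')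
    have hzU' : z ∉ U' := fun h' => hz (hU' h')
    have h4 : cr N U' = 0 := by
      apply cr_eq_zero
      intro e he
      induction e using Sym2.ind with
      | _ a b =>
        have ha : a ∉ U' := fun h' => h2 _ he a (by simp) (hU' h')
        have hb : b ∉ U' := fun h' => h2 _ he b (by simp) (hU' h')
        simp [ha, hb]
    simpa [hwU', hzU', h4] using h3
  · intro a ha
    have hxw := h.ne_w (hU hx)
    have huw := h.ne_w (hU hu)
    rcases Multiset.mem_cons.mp ha with h1 | ha
    · have h2 : x ∈ s(a, a) := by rw [h1]; simp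
      have h3 : w ∈ s(a, a) := by rw [h1]; simp
      simp only [Sym2.mem_iff, or_self] at h2 h3
      exact hxw (h2.trans h3.symm)
    rcases Multiset.mem_cons.mp ha with h1 | ha
    · have h2 : u ∈ s(a, a) := by rw [h1]; simp
      have h3 : w ∈ s(a, a) := by rw [h1]; simp
      simp only [Sym2.mem_iff, or_self] at h2 h3
      exact huw (h2.trans h3.symm)
    · exact h.noloop a (Multiset.mem_of_le hM1 ha)
  · intro a ha b hb
    have hn : ∀ c, s(a, b) ≠ s(c, w) := by
      intro c
      rw [Sym2.eq_swap (a := c)]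
      exact ne_of_notMem_sym2 (h.ne_w (hU ha)) (h.ne_w (hU hb))
    rw [Multiset.count_cons_of_ne (hn _), Multiset.count_cons_of_ne (hn _)]
    exact h.count_le hM1 (hU ha) (hU hb)

lemma outside {x u z : V} {U : Finset V} {M1 N : Multiset (Sym2 V)}
    (h : St S w (s(x, w) ::ₘ s(u, z) ::ₘ (M1 + N))) (hU : U ⊆ S) (hx : x ∈ U) (hu : u ∈ U)
    (hz : z ∉ U) (hzw : z ≠ w) (h1 : ∀ e ∈ M1, ∀ v ∈ e, v ∈ U)
    (h2 : ∀ e ∈ N, ∀ v ∈ e, v ∉ U) :
    St (S \ U) w (s(w, z) ::ₘ N) := by
  have hM1 : N ≤ s(x, w) ::ₘ s(u, z) ::ₘ (M1 + N) :=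
    (Multiset.le_add_left N M1).trans (le_cons2 _ _ _)
  refine ⟨?_, ?_, ?_, ?_, ?_, ?_⟩
  · rw [Finset.mem_sdiff]; intro h'; exact h.hw h'.1
  · intro e he v hv
    rcases Multiset.mem_cons.mp he with rfl | he
    · rcases Sym2.mem_iff.mp hv with rfl | rfl
      · right; rfl
      · left
        rw [Finset.mem_sdiff]
        refine ⟨?_, hz⟩
        rcases h.sub s(u, v) (by simp) v (by simp) with h3 | h3
        · exact h3
        · exact absurd h3 hzw
    · rcases h.sub e (Multiset.mem_of_le hM1 he) v hv with h3 | h3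
      · left; rw [Finset.mem_sdiff]; exact ⟨h3, h2 e he v hv⟩
      · right; exact h3
  · intro v hv
    rw [Finset.mem_sdiff] at hv
    have h3 := h.deg v hv.1
    have h4 : w ≠ v := (h.ne_w hv.1).symm
    have h5 : x ≠ v := fun h' => hv.2 (h' ▸ hx)
    have h5' : u ≠ v := fun h' => hv.2 (h' ▸ hu)
    have h6 : dg M1 v = 0 := dg_eq_zero_iff.mpr (fun e he hve => hv.2 (h1 e he v hve))
    simp only [dg_cons, dgE_mk, dg_add, h4, h5, h5', h6, if_false] at h3 ⊢
    omega
  · intro U' hU' hne
    have h3 := h.cut U' (hU'.trans Finset.sdiff_subset) hne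
    have hdis : ∀ v ∈ U, v ∉ U' := fun v hv h' => (Finset.mem_sdiff.mp (hU' h')).2 hv
    have hwU' : w ∉ U' := fun h' => h.hw (Finset.mem_sdiff.mp (hU' h')).1
    have hxU' := hdis x hx
    have huU' := hdis u hu
    have h4 : cr M1 U' = 0 := by
      apply cr_eq_zero
      intro e he
      induction e using Sym2.ind with
      | _ a b =>
        have ha : a ∉ U' := hdis a (h1 _ he a (by simp))
        have hb : b ∉ U' := hdis b (h1 _ he b (by simp))
        simp [ha, hb]
    simpa [hwU', hxU', huU', h4] using h3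
  · intro a ha
    rcases Multiset.mem_cons.mp ha with h1 | ha
    · have h2 : w ∈ s(a, a) := by rw [h1]; simp
      have h3 : z ∈ s(a, a) := by rw [h1]; simp
      simp only [Sym2.mem_iff, or_self] at h2 h3
      exact hzw (h3.trans h2.symm)
    · exact h.noloop a (Multiset.mem_of_le hM1 ha)
  · intro a ha b hb
    rw [Finset.mem_sdiff] at ha hb
    rw [Multiset.count_cons_of_ne (ne_of_notMem_sym2 (h.ne_w ha.1) (h.ne_w hb.1))]
    exact h.count_le hM1 ha.1 hb.1

lemma outside' {x u : V} {U : Finset V} {M1 N : Multiset (Sym2 V)}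
    (h : St S w (s(x, w) ::ₘ s(u, w) ::ₘ (M1 + N))) (hU : U ⊆ S) (hx : x ∈ U) (hu : u ∈ U)
    (h1 : ∀ e ∈ M1, ∀ v ∈ e, v ∈ U)
    (h2 : ∀ e ∈ N, ∀ v ∈ e, v ∉ U) :
    St (S \ U) w N := by
  have hM1 : N ≤ s(x, w) ::ₘ s(u, w) ::ₘ (M1 + N) :=
    (Multiset.le_add_left N M1).trans (le_cons2 _ _ _)
  refine ⟨?_, ?_, ?_, ?_, ?_, ?_⟩
  · rw [Finset.mem_sdiff]; intro h'; exact h.hw h'.1
  · intro e he v hv
    rcases h.sub e (Multiset.mem_of_le hM1 he) v hv with h3 | h3
    · left; rw [Finset.mem_sdiff]; exact ⟨h3, h2 e he v hv⟩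
    · right; exact h3
  · intro v hv
    rw [Finset.mem_sdiff] at hv
    have h3 := h.deg v hv.1
    have h4 : w ≠ v := (h.ne_w hv.1).symm
    have h5 : x ≠ v := fun h' => hv.2 (h' ▸ hx)
    have h5' : u ≠ v := fun h' => hv.2 (h' ▸ hu)
    have h6 : dg M1 v = 0 := dg_eq_zero_iff.mpr (fun e he hve => hv.2 (h1 e he v hve))
    simp only [dg_cons, dgE_mk, dg_add, h4, h5, h5', h6, if_false] at h3 ⊢
    omega
  · intro U' hU' hne
    have h3 := h.cut U' (hU'.trans Finset.sdiff_subset) hne
    have hdis : ∀ v ∈ U, v ∉ U' := fun v hv h' => (Finset.mem_sdiff.mp (hU' h')).2 hv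
    have hwU' : w ∉ U' := fun h' => h.hw (Finset.mem_sdiff.mp (hU' h')).1
    have hxU' := hdis x hx
    have huU' := hdis u hu
    have h4 : cr M1 U' = 0 := by
      apply cr_eq_zero
      intro e he
      induction e using Sym2.ind with
      | _ a b =>
        have ha : a ∉ U' := hdis a (h1 _ he a (by simp))
        have hb : b ∉ U' := hdis b (h1 _ he b (by simp))
        simp [ha, hb]
    simpa [hwU', hxU', huU', h4] using h3
  · intro a ha
    exact h.noloop a (Multiset.mem_of_le hM1 ha)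
  · intro a ha b hb
    rw [Finset.mem_sdiff] at ha hb
    exact h.count_le hM1 ha.1 hb.1

end St

end Pool.Agent.FlowCubic
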